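import Pool.Agent.MP42.EO.GF6
import Pool.Agent.MP42.NE.Thin

/-!
# Thin ribbons at the bad tripods of the spine system (owner helper18)

At a bad tripod the two facets orthogonal to `a` have the vertex at the northeast or southwest
corner of their nominal frames and are opposite; a strand may pass the vertex from one of them to
the other (the `Y-Y` pass), and its type changes.

Let `s` be a nominal frame orthogonal to `a` (a real ribbon dart) whose east end is a bad tripod
(`BadC a b s`).  The pass belongs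

* either to the corners between the real ribbons and the walls not orthogonal to `b` (`T.X s`):
  the thin dart comes directly after the real dart `s`, in the gap `(s, E s)`, and is crossed with
  the sign `true` (`v = 1`) only;
* or to the corners between the walls orthogonal to `b` and the real ribbons (`T.Z s`): the thin
  dart comes directly before the real dart `s.r2`, in the gap `(E⁻¹ s.r2, s.r2)`, and is crossed
  with the sign `false` (`v = -1`) only.
-/

set_option autoImplicit false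

namespace Pool.Agent.MP42.NE.Sys.Cuts

variable {D : Type*} {S : Sys D} (C : S.Cuts)

instance [Finite D] : Finite C.DD := by
  classical
  obtain ⟨k, hk⟩ : ∃ k, ∀ d : D, C.n d ≤ k := by
    obtain ⟨k, hk⟩ := (Set.finite_range C.n).bddAbove
    exact ⟨k, fun d => hk ⟨d, rfl⟩⟩
  have : Finite (D × Fin (k + 1)) := inferInstance
  refine Finite.of_injective
    (fun p : C.DD => (p.1.1, (⟨p.1.2, Nat.lt_succ_of_le (p.2.trans (hk _))⟩ : Fin (k + 1)))) ?_
  intro p q h
  have h1 := congrArg Prod.fst h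
  have h2 := congrArg (fun z : D × Fin (k + 1) => z.2.1) h
  exact (C.ext_iff').2 ⟨h1, h2⟩

end Pool.Agent.MP42.NE.Sys.Cuts

namespace Pool.Agent.MP42.EO

open Pool.Agent.Helper55.UNF Pool.Agent.Helper55.UNF.GridSolid Pool.Agent.MP42.NE

variable {P : GridSolid} {a b : Fin 3}

/-- `s` is a real ribbon dart whose east end (the northeast corner of `s`) is a bad tripod. -/
structure BadC (a b : Fin 3) (s : P.FSt) : Prop where
  ky : KY a b s
  ky' : KY a b (opq s)
  ok : PassOk s
  ne : (opq s).facet ≠ s.facet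

/-- the east neighbour at a bad corner is a wall not orthogonal to `b` -/
lemma BadC.east {s : P.FSt} (h : BadC a b s) (hab : a ≠ b) : KX a b s.stE := by
  rcases HFl.kind_stE hab (Or.inr h.ky) with ⟨h1, -⟩ | ⟨h1, -⟩
  · exact h1
  exfalso
  have e1 : opq s = (s.stE.stN.rL).stN := by
    show (s.stE.rL.stE).stN = _
    rw [stE_rL]
  have h2 : (opq s).1.e.1 = s.stE.stN.rL.1.e.1 := by rw [e1, stN_ax]
  rcases HFl.kind_stN hab (Or.inr h1) with ⟨h3, -⟩ | ⟨h3, -⟩
  · exact h.ky'.ea (h2.trans (HFl.rL_dart hab h3.1 h3.2))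
  · exact h.ky'.2 (h2.trans ((rL_b hab h3.1).2 h3.2))

/-- the north neighbour at a bad corner is a wall orthogonal to `b` -/
lemma BadC.north {s : P.FSt} (h : BadC a b s) (hab : a ≠ b) : KZ a b s.stN := by
  rcases HFl.kind_stN hab (Or.inr h.ky) with ⟨h1, -⟩ | ⟨h1, -⟩
  · exact h1
  exfalso
  have e1 : s.stN.stE.rR.stE = opq s := h.ok
  have hk := h.ky'
  rw [← e1] at hk
  have key : ∀ w : P.FSt, (KX a b w ∨ KY a b w) → w.rR.1.e.1 = b := by
    intro w hw
    rcases hw with hw | hw
    · have fin : ∀ a b d e x : Fin 3, a ≠ b → d ≠ a → d ≠ b → e = a → x ≠ e → d ≠ x → x = b := by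
        decide
      exact fin a b _ _ _ hab hw.1 hw.2.1 hw.2.2 (rL_ax w) (ax_ne w.rL)
    · exact (rR_b hab hw.1).2 hw.2
  have hw : KX a b s.stN.stE ∨ KY a b s.stN.stE := by
    rcases HFl.kind_stE hab (Or.inr h1) with ⟨h2, -⟩ | ⟨h2, -⟩
    · exact Or.inl h2
    · exact Or.inr h2
  have h3 := key _ hw
  rcases stE_ax s.stN.stE.rR with ⟨-, h5⟩ | ⟨h4, -⟩
  · exact hk.2 (h5.trans h3)
  · exact hab (hk.1.symm.trans (h4.trans h3))

lemma BadC.wall {s : P.FSt} (h : BadC a b s) (hab : a ≠ b) : ¬ s.stN.1.d.1 = a := fun h' =>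
  hab (h'.symm.trans (h.north hab).1)

/-- A choice of thin ribbons: at every bad tripod none, the two `X` corners, the two `Z` corners,
or both. -/
structure Thin (P : GridSolid) (a b : Fin 3) where
  X : P.FSt → Prop
  Z : P.FSt → Prop
  bX : ∀ s, X s → BadC a b s
  bZ : ∀ s, Z s → BadC a b s
  oX : ∀ s, X s → X (opq s).r2
  oZ : ∀ s, Z s → Z (opq s).r2

/-! ## The system with the thin ribbons -/

lemma not_KY_rL (hab : a ≠ b) {s : P.FSt} (h : KY a b s) : ¬ KY a b s.rL := fun h' =>
  (nom_rL_iff hab s).1 (h'.nom hab) (h.nom hab)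

/-- the east neighbour of a real ribbon dart is no real ribbon dart -/
lemma not_KY_hE (hab : a ≠ b) {s : P.FSt} (h : KY a b s) : ¬ KY a b (hE a b s) := by
  rcases HFl.kind_stE hab (Or.inr h) with ⟨h1, h2⟩ | ⟨h1, h2⟩
  · rw [h2]; exact fun h' => h1.1 h'.1
  · rw [h2]; exact not_KY_rL hab h1

namespace Thin

variable (T : Thin P a b) (hab : a ≠ b)

open Classical in
/-- number of the thin darts in the gap after a dart -/
noncomputable def la (d : HD P a) : ℕ :=
  if T.X d.1 ∨ T.Z (hE a b d.1).r2 then 1 else 0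

open Classical in
/-- the other side of a thin ribbon -/
noncomputable def cpd (d : HD P a) : HD P a :=
  if h : T.X d.1 then ⟨(opq d.1).r2, (T.bX _ h).ky'.isD⟩
  else if h : T.Z (hE a b d.1).r2 then
    (sysH P a b hab).E.symm ⟨opq (hE a b d.1).r2, (T.bZ _ h).ky'.isD⟩
  else d

variable {T}

lemma la_pos {d : HD P a} : 0 < T.la d ↔ (T.X d.1 ∨ T.Z (hE a b d.1).r2) := by
  unfold la
  split_ifs with h
  · exact ⟨fun _ => h, fun _ => Nat.one_pos⟩
  · exact ⟨fun h' => absurd h' (lt_irrefl _), fun h' => absurd h' h⟩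

lemma la_le (d : HD P a) : T.la d ≤ 1 := by
  unfold la; split_ifs <;> omega

lemma la_one {d : HD P a} (h : T.X d.1 ∨ T.Z (hE a b d.1).r2) : T.la d = 1 := if_pos h

lemma not_XZ (hab : a ≠ b) {d : HD P a} (h : T.X d.1) : ¬ T.Z (hE a b d.1).r2 := fun h' =>
  not_KY_hE hab (T.bX _ h).ky ((T.bZ _ h').ky)

lemma cpd_X {d : HD P a} (h : T.X d.1) :
    T.cpd hab d = ⟨(opq d.1).r2, (T.bX _ h).ky'.isD⟩ := dif_pos h

lemma cpd_Z {d : HD P a} (h : T.Z (hE a b d.1).r2) :
    T.cpd hab d = (sysH P a b hab).E.symm ⟨opq (hE a b d.1).r2, (T.bZ _ h).ky'.isD⟩ := by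
  unfold cpd
  rw [dif_neg (fun h' => not_XZ hab h' h), dif_pos h]

lemma cpd_Z_E {d : HD P a} (h : T.Z (hE a b d.1).r2) :
    hE a b (T.cpd hab d).1 = opq (hE a b d.1).r2 := by
  rw [cpd_Z hab h]
  exact congrArg Subtype.val ((sysH P a b hab).E.apply_symm_apply _)

lemma cpd_or {d : HD P a} (h : T.X d.1 ∨ T.Z (hE a b d.1).r2) :
    (T.X d.1 ∧ T.X (T.cpd hab d).1) ∨
      (T.Z (hE a b d.1).r2 ∧ T.Z (hE a b (T.cpd hab d).1).r2) := by
  rcases h with h | h
  · left
    refine ⟨h, ?_⟩
    rw [cpd_X hab h]; exact T.oX _ h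
  · right
    refine ⟨h, ?_⟩
    rw [cpd_Z_E hab h]; exact T.oZ _ h

lemma cpd_cpd {d : HD P a} (h : T.X d.1 ∨ T.Z (hE a b d.1).r2) :
    T.cpd hab (T.cpd hab d) = d := by
  rcases h with h | h
  · have h1 : T.X (T.cpd hab d).1 := by rw [cpd_X hab h]; exact T.oX _ h
    rw [cpd_X hab h1]
    apply Subtype.ext
    show (opq (T.cpd hab d).1).r2 = d.1
    rw [cpd_X hab h]
    show (opq (opq d.1).r2).r2 = d.1
    rw [opq_opq (T.bX _ h).ok, FSt.r2_r2]
  · have h1 : T.Z (hE a b (T.cpd hab d).1).r2 := by rw [cpd_Z_E hab h]; exact T.oZ _ h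
    rw [cpd_Z hab h1, Equiv.symm_apply_eq]
    apply Subtype.ext
    show opq (hE a b (T.cpd hab d).1).r2 = hE a b d.1
    rw [cpd_Z_E hab h, opq_opq (T.bZ _ h).ok, FSt.r2_r2]

lemma cpd_ne {d : HD P a} (h : T.X d.1 ∨ T.Z (hE a b d.1).r2) : T.cpd hab d ≠ d := by
  intro h1
  rcases h with h | h
  · rw [cpd_X hab h] at h1
    have h2 : (opq d.1).r2 = d.1 := congrArg Subtype.val h1
    apply (T.bX _ h).ne
    rw [← FSt.facet_r2 (opq d.1), h2]
  · have h2 := cpd_Z_E hab h
    rw [h1] at h2
    apply (T.bZ _ h).ne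
    rw [FSt.facet_r2 (hE a b d.1), ← h2]

variable (T)

/-- **the thin ribbons** -/
noncomputable def cuts : (sysH P a b hab).Cuts where
  la := T.la
  cp := fun p => (T.cpd hab p.1, p.2)
  pos := fun p h _ => h
  le := fun p h1 h2 => by
    have h3 := la_pos.1 (lt_of_lt_of_le h1 h2)
    have h4 : T.la (T.cpd hab p.1) = 1 := la_one ((cpd_or hab h3).imp And.right And.right)
    have h5 := T.la_le p.1
    show p.2 ≤ T.la (T.cpd hab p.1)
    omega
  cp_cp := fun p h1 h2 => by
    have h3 := la_pos.1 (lt_of_lt_of_le h1 h2)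
    exact Prod.ext (cpd_cpd hab h3) rfl
  cp_ne := fun p h1 h2 h => by
    have h3 := la_pos.1 (lt_of_lt_of_le h1 h2)
    exact cpd_ne hab h3 (congrArg Prod.fst h)

/-- the darts of the system with the thin ribbons -/
abbrev TD : Type := (T.cuts hab).DD

/-- **the system with the thin ribbons** -/
noncomputable abbrev tsys : Sys (T.TD hab) := (T.cuts hab).sys

variable {T hab}

/-- a dart of the spine system -/
def d0 (T : Thin P a b) (hab : a ≠ b) (x : HD P a) : T.TD hab := ⟨(x, 0), Nat.zero_le _⟩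

/-- the darts whose north side is a ribbon, thin or not -/
def RibT (p : T.TD hab) : Prop :=
  if p.1.2 = 0 then Rib b p.1.1 else p.1.2 ≤ T.la p.1.1

/-- A strand may cross the ribbon `p` with the sign `s` (`true` = north, `v p > 0`), with the type
`t` on the side of `p` and the type `t'` on the other side.  At a thin ribbon the type changes, and
the sign is `true` at the `X` corners, `false` at the `Z` corners. -/
def okT (p : T.TD hab) (s t t' : Bool) : Prop :=
  if p.1.2 = 0 then okH b p.1.1 s t t' else (t' = !t ∧ (s = true ↔ T.X p.1.1.1))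

end Thin

end Pool.Agent.MP42.EO
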