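import Pool.Agent.MP42.TP.TF7

/-!
# Typed connected flows with thin ribbons unfold (owner helper18)
-/

set_option autoImplicit false

namespace Pool.Agent.MP42.EO

open Pool.Agent.Helper55.UNF Pool.Agent.Helper55.UNF.GridSolid Pool.Agent.MP42.NE

variable {P : GridSolid} {a b : Fin 3} {T : Thin P a b} {hab : a ≠ b}

namespace Thin

variable {e : T.TD hab → ℕ} {v : T.TD hab → ℤ}

open Classical in
/-- the types at the darts of the spine system -/
noncomputable def gg0 (g : T.TD hab → ℕ → Bool) (t : P.FSt) (j : ℕ) : Bool :=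
  if h : IsD a t then g (d0 T hab ⟨t, h⟩) j else false

lemma gg0_eq (g : T.TD hab → ℕ → Bool) (x : HD P a) (j : ℕ) :
    gg0 g x.1 j = g (d0 T hab x) j := dif_pos x.2

lemma okT_d1 {x : HD P a} {h : 1 ≤ (T.cuts hab).n x} {s t t' : Bool} :
    okT (d1 T hab x h) s t t' ↔ (t' = !t ∧ (s = true ↔ T.X x.1)) := by
  unfold okT
  rw [if_neg (show ¬ (d1 T hab x h).1.2 = 0 from one_ne_zero)]
  exact Iff.rfl

/-- the types of the reduced flow -/
lemma typ_toT (H : Adm e v) (g : T.TD hab → ℕ → Bool)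
    (gE : ∀ (d : T.TD hab) (j : ℕ), j < e d →
      g d ((v d).toNat + j) = g ((T.tsys hab).E d) ((-v ((T.tsys hab).E d)).toNat + j))
    (gr : ∀ (d : T.TD hab) (t : ℕ), t < (T.tsys hab).cnt e v d →
      g ((T.tsys hab).r d) t = g d ((T.tsys hab).cnt e v d - 1 - t))
    (gp : ∀ (d : T.TD hab) (j : ℕ), (j : ℤ) < v d → okT d true (g d j)
      (g ((T.tsys hab).N d) ((-v ((T.tsys hab).N d)).toNat +
        e ((T.tsys hab).r ((T.tsys hab).N d)) + j)))
    (gm : ∀ (d : T.TD hab) (j : ℕ), (j : ℤ) < -v d → okT d false (g d j)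
      (g ((T.tsys hab).N d) ((v ((T.tsys hab).N d)).toNat + e ((T.tsys hab).N d) + j))) :
    (toT H).Typ (gg0 g) := by
  have hcnt : ∀ (x : HD P a) (h : 1 ≤ (T.cuts hab).n x),
      (T.tsys hab).cnt e v (d1 T hab x h) = e (d0 T hab ((sysH P a b hab).om x)) +
        (tv v x).toNat + (-tv v ((sysH P a b hab).om x)).toNat := by
    intro x h
    unfold Sys.cnt
    rw [r_d1, e_d1 H h, ← tv_pos (v := v) h, ← tv_pos (v := v) (n_om' h)]
  constructor
  · -- ring
    intro t ht j hj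
    have h0 := vv_toT H ⟨t, ht⟩
    have h1 := p_toT H ⟨t, ht⟩
    have h2 := q_toT H ⟨t, ht⟩
    have h3 := vv_toT H ((sysH P a b hab).E ⟨t, ht⟩)
    have hs := sd_add_toT H ⟨t, ht⟩
    have he := e_gap H ⟨t, ht⟩
    change (toT H).vv (hE a b t) = _ at h3
    change (toT H).vv t = _ at h0
    change (toT H).p t = _ at h1
    change (toT H).q (hE a b t).r2 = _ at h2
    change (toT H).sd t + _ = _ at hs
    rw [h0, h1, h2, h3]
    have k1 := fun i => gg0_eq g ⟨t, ht⟩ i
    have k2 := fun i => gg0_eq g ((sysH P a b hab).E ⟨t, ht⟩) i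
    change ∀ i, gg0 g t i = _ at k1
    change ∀ i, gg0 g (hE a b t) i = _ at k2
    rw [k1, k2]
    obtain ⟨x, hx⟩ : ∃ x : HD P a, x = ⟨t, ht⟩ := ⟨_, rfl⟩
    rw [← hx] at hs he ⊢
    by_cases h : 1 ≤ (T.cuts hab).n x
    · have a1 := gE (d0 T hab x)
      have a2 := gE (d1 T hab x h)
      rw [E_d0' h] at a1
      rw [E_d1 h, e_d1 H h] at a2
      rw [← tv_pos (v := v) h] at a1 a2
      rcases own_or h with ⟨o1, o2⟩ | ⟨o1, o2⟩
      · obtain ⟨s1, s2⟩ := own_sign H o1
        have b1 := a1 ((tv v x).toNat + j) (by omega)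
        have b2 := a2 j (by omega)
        rw [show (-tv v x).toNat = 0 by omega, Nat.zero_add] at b1
        rw [show (-tv v x).toNat = 0 by omega, Nat.add_zero, Nat.add_assoc, b1, b2]
      · obtain ⟨s1, s2⟩ := own_sign' H o2
        have b1 := a1 j (by omega)
        have b2 := a2 ((-tv v x).toNat + j) (by omega)
        rw [show (tv v x).toNat = 0 by omega, Nat.zero_add] at b2
        rw [show (tv v x).toNat = 0 by omega, Nat.add_zero, b1, b2, Nat.add_assoc]
    · obtain ⟨s1, s2⟩ := tv_not (v := v) h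
      have a1 := gE (d0 T hab x) j (by rw [s1, s2] at hs; simp at hs; omega)
      rw [E_d0 h] at a1
      rw [s1]
      simpa using a1
  · -- half turn
    intro t ht j hj
    have h0 := cn_toT H ⟨t, ht⟩
    change (toT H).cn t = _ at h0
    rw [h0] at hj ⊢
    have h1 := gr _ j hj
    rw [r_d0] at h1
    have k1 := fun i => gg0_eq g ⟨t, ht⟩ i
    have k2 := fun i => gg0_eq g ((sysH P a b hab).r ⟨t, ht⟩) i
    change ∀ i, gg0 g t i = _ at k1
    change ∀ i, gg0 g (hr a b t) i = _ at k2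
    rw [k1, k2]
    exact h1
  · -- north
    intro t ht j hj
    have h0 := vv_toT H ⟨t, ht⟩
    have h1 := vv_toT H ((sysH P a b hab).N ⟨t, ht⟩)
    have h2 := ee_toT H ((sysH P a b hab).r ((sysH P a b hab).N ⟨t, ht⟩))
    have k1 := fun i => gg0_eq g ⟨t, ht⟩ i
    have k2 := fun i => gg0_eq g ((sysH P a b hab).N ⟨t, ht⟩) i
    change (toT H).vv t = _ at h0
    change (toT H).vv (hN a t) = _ at h1
    change (toT H).ee (hr a b (hN a t)) = _ at h2
    change ∀ i, gg0 g t i = _ at k1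
    change ∀ i, gg0 g (hN a t) i = _ at k2
    rw [h0] at hj
    have h3 := gp _ j hj
    rw [N_d0, r_d0] at h3
    unfold okT at h3
    rw [if_pos (show (d0 T hab ⟨t, ht⟩).1.2 = 0 from rfl)] at h3
    rw [k1, k2, h1, h2]
    exact h3
  · intro t ht j hj
    have h0 := vv_toT H ⟨t, ht⟩
    have h1 := vv_toT H ((sysH P a b hab).N ⟨t, ht⟩)
    have h2 := ee_toT H ((sysH P a b hab).N ⟨t, ht⟩)
    have k1 := fun i => gg0_eq g ⟨t, ht⟩ i
    have k2 := fun i => gg0_eq g ((sysH P a b hab).N ⟨t, ht⟩) i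
    change (toT H).vv t = _ at h0
    change (toT H).vv (hN a t) = _ at h1
    change (toT H).ee (hN a t) = _ at h2
    change ∀ i, gg0 g t i = _ at k1
    change ∀ i, gg0 g (hN a t) i = _ at k2
    rw [h0] at hj
    have h3 := gm _ j hj
    rw [N_d0] at h3
    unfold okT at h3
    rw [if_pos (show (d0 T hab ⟨t, ht⟩).1.2 = 0 from rfl)] at h3
    rw [k1, k2, h1, h2]
    exact h3
  · -- passes at the `X` corners
    intro s hs
    obtain ⟨hX, h1⟩ := pp_one H hs
    have hb := T.bX _ hX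
    obtain ⟨x, hx⟩ : ∃ x : HD P a, x = ⟨s, hb.ky.isD⟩ := ⟨_, rfl⟩
    have hxs : x.1 = s := by rw [hx]
    have htx : tv v x = 1 := by rw [hx]; exact h1
    have hl : 0 < T.la x := la_pos.2 (Or.inl (by rw [hxs]; exact hX))
    have h : 1 ≤ (T.cuts hab).n x := n_la hl
    obtain ⟨y, hy⟩ : ∃ y, y = T.cpd hab x := ⟨_, rfl⟩
    have hly : 0 < T.la y := by rw [hy]; exact la_cpd hl
    have hyv : y.1 = (opq s).r2 := by
      rw [hy, cpd_X hab (by rw [hxs]; exact hX)]
      show (opq x.1).r2 = _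
      rw [hxs]
    have hty : tv v y = 1 := by rw [hy, tv_cpd H hl, htx]
    have hto : tv v ((sysH P a b hab).om y) = 0 := by
      rcases tv_or H y with h1 | h1
      · omega
      · exact h1
    have hgx := e_gap H x
    have hgy := e_gap H y
    have htxo : tv v ((sysH P a b hab).om x) = 0 := by
      rcases tv_or H x with h1 | h1
      · omega
      · exact h1
    have hN1 : (T.tsys hab).N (d1 T hab x h) =
        d1 T hab ((sysH P a b hab).om y) (n_om' (n_la hly)) := by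
      subst hy; exact N_d1 hl
    have hr1 : (T.tsys hab).r ((T.tsys hab).N (d1 T hab x h)) = d1 T hab y (n_la hly) := by
      subst hy; exact ta_d1 hl
    have a1 := gE (d0 T hab x) 0 (by omega)
    rw [E_d0' h, ← tv_pos (v := v) h, htx] at a1
    have a2 := gp (d1 T hab x h) 0 (by rw [← tv_pos (v := v) h]; omega)
    rw [okT_d1, hr1, hN1, e_d1 H, ← tv_pos (v := v) (n_om' (n_la hly)), hto] at a2
    have a3 := gE (d1 T hab ((sysH P a b hab).om y) (n_om' (n_la hly)))
      (e (d0 T hab ((sysH P a b hab).om y))) (by rw [e_d1 H, Sys.om_om]; omega)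
    rw [← tv_pos (v := v) (n_om' (n_la hly)), hto, E_d1, Sys.E_om] at a3
    have hrv : ((sysH P a b hab).r y).1 = (opq s).rL := by
      show hr a b y.1 = _
      rw [hyv, hr_nom (t := (opq s).r2) hb.ky'.1 hb.ky'.2, FSt.r2_rR]
    have hv0 : (toT H).vv (opq s).rL = 0 :=
      TFl.vv_zero hb.ky'.1 ((rL_b hab hb.ky'.1).2 hb.ky'.2)
    rw [← hrv, vv_toT] at hv0
    have k1 := fun i => gg0_eq g x i
    have k2 := fun i => gg0_eq g ((sysH P a b hab).r y) i
    rw [hxs] at k1
    rw [hrv] at k2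
    have k3 := vv_toT H x
    rw [hxs] at k3
    have k4 := ee_toT H y
    rw [hyv] at k4
    rw [k1, k2, k3, k4]
    rw [hv0] at a3
    have e1 : e (d0 T hab y) - 1 = (-(0 : ℤ)).toNat + e (d0 T hab ((sysH P a b hab).om y)) := by
      omega
    rw [e1, ← a3]
    have e2 : (0 : ℤ).toNat + e (d0 T hab ((sysH P a b hab).om y)) = (-(0 : ℤ)).toNat +
      e (d0 T hab ((sysH P a b hab).om y)) + 0 := by omega
    rw [e2, a2.1]
    congr 1
    rw [Nat.add_zero] at a1
    rw [a1]
    rfl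
  · -- passes at the `Z` corners
    intro s hs
    obtain ⟨hZ, h1⟩ := qq_one H hs
    have hb := T.bZ _ hZ
    obtain ⟨z, hz⟩ : ∃ z : HD P a, z = ⟨s.rL, hb.ky.isD'⟩ := ⟨_, rfl⟩
    rw [← hz] at h1
    have hzs : z.1 = s.rL := by rw [hz]
    obtain ⟨x, hx⟩ : ∃ x : HD P a, x = (sysH P a b hab).om z := ⟨_, rfl⟩
    rw [← hx] at h1
    have hxz : (sysH P a b hab).om x = z := by rw [hx, Sys.om_om]
    have hEx : hE a b x.1 = s.r2 := by rw [hx, hz]; exact E_om_rL hb.ky
    have hZx : T.Z (hE a b x.1).r2 := by rw [hEx, FSt.r2_r2]; exact hZ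
    have hl : 0 < T.la x := la_pos.2 (Or.inr hZx)
    have h : 1 ≤ (T.cuts hab).n x := n_la hl
    obtain ⟨y, hy⟩ : ∃ y, y = T.cpd hab x := ⟨_, rfl⟩
    have hly : 0 < T.la y := by rw [hy]; exact la_cpd hl
    have hyv : hE a b y.1 = opq s := by
      rw [hy, cpd_Z_E hab hZx, hEx, FSt.r2_r2]
    have hty : tv v y = -1 := by rw [hy, tv_cpd H hl, h1]
    have hto : tv v ((sysH P a b hab).om y) = 0 := by
      rcases tv_or H y with h1 | h1
      · omega
      · exact h1
    have hgx := e_gap H x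
    have hgy := e_gap H y
    have htxo : tv v ((sysH P a b hab).om x) = 0 := by
      rcases tv_or H x with h1 | h1
      · omega
      · exact h1
    rw [hxz] at hgx htxo
    have hN1 : (T.tsys hab).N (d1 T hab x h) =
        d1 T hab ((sysH P a b hab).om y) (n_om' (n_la hly)) := by
      subst hy; exact N_d1 hl
    have hz1 : 1 ≤ (T.cuts hab).n z := by rw [← hxz]; exact n_om' h
    have hv0 : (toT H).vv s.rL = 0 := TFl.vv_zero hb.ky.1 ((rL_b hab hb.ky.1).2 hb.ky.2)
    rw [← hzs, vv_toT] at hv0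
    -- from the facet of `s` to the thin dart
    have a1 := gE (d0 T hab z) (e (d0 T hab z) - 1) (by omega)
    rw [E_d0' hz1, ← tv_pos (v := v) hz1, htxo, hv0] at a1
    have hc := hcnt x h
    rw [hxz] at hc
    have hr2 : (T.tsys hab).r (d1 T hab x h) = d1 T hab z hz1 := by
      rw [r_d1, Sys.Cuts.ext_iff']
      exact ⟨hxz, rfl⟩
    have a2 := gr (d1 T hab x h) (e (d0 T hab z) - 1) (by rw [hc]; omega)
    rw [hr2, hc] at a2
    have a2' : g (d1 T hab z hz1) (e (d0 T hab z) - 1) = g (d1 T hab x h) 0 := by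
      have e2 : e (d0 T hab z) + (tv v x).toNat + (-tv v z).toNat - 1 -
        (e (d0 T hab z) - 1) = 0 := by omega
      rw [e2] at a2
      exact a2
    -- over the thin ribbon
    have a3 := gm (d1 T hab x h) 0 (by rw [← tv_pos (v := v) h]; omega)
    rw [okT_d1, hN1, e_d1 H, ← tv_pos (v := v) (n_om' (n_la hly)), hto, Sys.om_om] at a3
    -- into the facet of `opq s`
    have a4 := gr (d1 T hab y (n_la hly)) (e (d0 T hab y)) (by rw [hcnt]; omega)
    rw [r_d1, hcnt] at a4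
    have a5 := gE (d1 T hab y (n_la hly)) 0 (by rw [e_d1 H]; omega)
    rw [← tv_pos (v := v) (n_la hly), E_d1] at a5
    have k1 := fun i => gg0_eq g z i
    have k2 := fun i => gg0_eq g ((sysH P a b hab).E y) i
    rw [hzs] at k1
    have hEy : ((sysH P a b hab).E y).1 = opq s := hyv
    rw [hEy] at k2
    have k3 := vv_toT H ((sysH P a b hab).E y)
    rw [hEy] at k3
    have k4 := ee_toT H z
    rw [hzs] at k4
    rw [k1, k2, k3, k4]
    have e3 : g (d0 T hab ((sysH P a b hab).E y))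
        (-v (d0 T hab ((sysH P a b hab).E y))).toNat =
        g (d1 T hab ((sysH P a b hab).om y) (n_om' (n_la hly))) (e (d0 T hab y)) := by
      rw [a4]
      rw [Nat.add_zero, Nat.add_zero] at a5
      rw [← a5]
      congr 1
      omega
    rw [e3]
    have e4 : (0 : ℤ).toNat + e (d0 T hab y) + 0 = e (d0 T hab y) := by omega
    rw [e4] at a3
    rw [a3.1, ← a2']
    have e5 : (0 : ℤ).toNat + (e (d0 T hab z) - 1) = e (d0 T hab z) - 1 := by omega
    have e6 : (-(0 : ℤ)).toNat + (e (d0 T hab z) - 1) = e (d0 T hab z) - 1 := by omega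
    rw [e5, e6] at a1
    rw [a1]

end Thin

/-- **Typed connected flows on the spine system with thin ribbons unfold.** -/
theorem hasEdgeUnfolding_of_thin {e : T.TD hab → ℕ} {v : T.TD hab → ℤ}
    (hF : (T.tsys hab).Fl e v) (hC : (T.tsys hab).FConn e v)
    (hXZ : ∀ s, T.X s → ¬ T.Z s) (h0 : ∀ p : T.TD hab, ¬ Thin.RibT p → v p = 0)
    (h1 : ∀ p : T.TD hab, p.1.2 ≠ 0 → |v p| ≤ 1)
    (hpos : ∀ x : HD P a, 0 < e (Thin.d0 T hab x)) (g : T.TD hab → ℕ → Bool)
    (gE : ∀ (d : T.TD hab) (j : ℕ), j < e d →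
      g d ((v d).toNat + j) = g ((T.tsys hab).E d) ((-v ((T.tsys hab).E d)).toNat + j))
    (gr : ∀ (d : T.TD hab) (t : ℕ), t < (T.tsys hab).cnt e v d →
      g ((T.tsys hab).r d) t = g d ((T.tsys hab).cnt e v d - 1 - t))
    (gp : ∀ (d : T.TD hab) (j : ℕ), (j : ℤ) < v d → Thin.okT d true (g d j)
      (g ((T.tsys hab).N d) ((-v ((T.tsys hab).N d)).toNat +
        e ((T.tsys hab).r ((T.tsys hab).N d)) + j)))
    (gm : ∀ (d : T.TD hab) (j : ℕ), (j : ℤ) < -v d → Thin.okT d false (g d j)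
      (g ((T.tsys hab).N d) ((v ((T.tsys hab).N d)).toNat + e ((T.tsys hab).N d) + j)))
    (F : P.Facet) {N : ℕ} (hN : ∀ x, e x ≤ N) (hN' : ∀ x, |v x| ≤ N)
    (hK : 0 < 2 * (5 * (N + 1) + 1) + 1) :
    (P.refine (2 * (5 * (N + 1) + 1) + 1) hK).HasEdgeUnfolding := by
  have H : Thin.Adm e v := by
    refine ⟨hF, h0, h1, fun p hp hv => ?_, fun p hp hv hX => ?_, hXZ⟩
    · have h2 := gp p 0 (by exact_mod_cast hv)
      unfold Thin.okT at h2
      rw [if_neg hp] at h2
      exact h2.2.1 rfl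
    · have h2 := gm p 0 (by push_cast; omega)
      unfold Thin.okT at h2
      rw [if_neg hp] at h2
      exact absurd (h2.2.2 hX) (by decide)
  exact TFl.hasEdgeUnfolding (S := Thin.toT H) (Thin.typ_toT H g gE gr gp gm) (Thin.rconn H hC)
    (fun x => hpos x) F (fun x => hN _) (fun x => hN' _) hK

end Pool.Agent.MP42.EO
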