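import Pool.Agent.MP42.TP.Cut
import Pool.Agent.MP42.EO.VM
import Pool.Agent.MP42.EO.VC

/-!
# Bad tripods by the local pattern (owner helper18)
-/

set_option autoImplicit false

namespace Pool.Agent.MP42NG.Loc8

/-- four ribbons -/
def qd (a b m q : ℕ) : Bool := bg a b m q && !(nuL a b m (nuL a b m (nuL a b m q)) == q)

/-- the facts at a bad tripod -/
def f7 (a b m q : ℕ) : Bool :=
  !(qd a b m q) || ((nuL a b m (nuL a b m (nuL a b m (nuL a b m q))) == q) &&
    qd a b m (nuL a b m q) &&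
    bif q / 8 == a then
      -- a real ribbon dart
      (kap m (kap m (kap m (kap m (kap m (kap m q))))) == q) && !(kap m (kap m (kap m q)) == q) &&
      (nuL a b m (nuL a b m q) == kap m (kap m (kap m q))) &&
      (nuL a b m (nuL a b m q) / 8 == a) &&
      (eax (nuL a b m q % 8) (nuL a b m q / 8) == a) && (nuL a b m q / 8 == b) &&
      !(kpi m (nuL a b m q) / 8 == b) && !(kpi m (nuL a b m q) / 8 == a)
    else
      (nuL a b m q == kap m q) && (nuL a b m q / 8 == a))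

lemma f7_all : ∀ m < 256, allT f7 m = true := by decide +kernel

end Pool.Agent.MP42NG.Loc8

namespace Pool.Agent.MP42.EO

open Pool.Agent.Helper55.UNF Pool.Agent.Helper55.UNF.GridSolid Pool.Agent.MP42.NE
open Pool.Agent.MP42.Geo Pool.Agent.MP42NG Pool.Agent.MP42
open Loc8

variable {Q : GridSolid} {a b : Fin 3}

lemma passOk_of {s : Q.FSt} (h : kappa (kappa (kappa (kappa (kappa (kappa s))))) = s) :
    PassOk s := by
  have h1 : rhoi (rhoi (rhoi (rhoi (rhoi (rhoi s))))) = s := h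
  have h2 : NE.rho (NE.rho (NE.rho s)) = rhoi (rhoi (rhoi s)) := by
    have h3 : NE.rho (NE.rho (NE.rho (rhoi (rhoi (rhoi (rhoi (rhoi (rhoi s)))))))) =
        rhoi (rhoi (rhoi s)) := by
      rw [rho_rhoi, rho_rhoi, rho_rhoi]
    rwa [h1] at h3
  rw [rho3', rhoi3] at h2
  have h3 := congrArg FSt.r2 h2
  rw [FSt.r2_r2, FSt.r2_r2] at h3
  exact h3

lemma cor_ne_rR (s : Q.FSt) : cor s.rR.1 ≠ cor s.1 := by
  intro h
  have h1 := congrFun h s.1.n.1
  rw [cor_rR] at h1
  unfold vec at h1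
  rw [if_pos rfl] at h1
  split_ifs at h1 <;> omega

/-- the four corners of a facet are different -/
lemma cor_facet {s t : Q.FSt} (h : t.facet = s.facet) (hc : cor t.1 = cor s.1) : t = s := by
  rcases frames h with h1 | h1 | h1 | h1
  · exact h1
  · exfalso
    have h2 : t.rR = s := by rw [h1, FSt.rL_rR]
    apply cor_ne_rR t
    rw [h2, hc]
  · exfalso
    have h2 := congrFun hc s.1.e.1
    rw [h1, cor_r2] at h2
    have h3 : vec s.1.n s.1.e.1 = 0 := by
      unfold vec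
      rw [if_neg]
      intro h4
      exact cross_axis_right _ _ s.2.2 h4.symm
    have h4 : vec s.1.e s.1.e.1 = if s.1.e.2 then 1 else -1 := if_pos rfl
    rw [h3, h4] at h2
    split_ifs at h2 <;> omega
  · exfalso
    apply cor_ne_rR s
    rw [← h1, hc]

/-- a vertex with four ribbons -/
def Quad (hab : a ≠ b) (x : RD Q a b) : Prop :=
  Big (EH hab) (tH hab) x ∧
    nu (EH hab) (tH hab) (nu (EH hab) (tH hab) (nu (EH hab) (tH hab) x)) ≠ x

lemma quad_iff (hab : a ≠ b) (x : RD Q a b) : Quad hab x ↔ qd a b (pa x) (lo x) = true := by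
  unfold Quad qd
  rw [big_iff, ne_eq, nu3_eq_iff]
  simp only [Bool.and_eq_true, Bool.not_eq_true', beq_eq_false_iff_ne, ne_eq]

section

variable (hM : Q.IsManifold) (hab : a ≠ b) {x : RD Q a b} (hx : Quad hab x)

include hM hx

lemma quad_nu : Quad hab (nu (EH hab) (tH hab) x) ∧
    nu (EH hab) (tH hab) (nu (EH hab) (tH hab) (nu (EH hab) (tH hab)
      (nu (EH hab) (tH hab) x))) = x := by
  have h1 := RD.fact f7_all hM hab x
  unfold f7 at h1
  rw [(quad_iff hab x).1 hx] at h1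
  simp only [Bool.not_true, Bool.false_or, Bool.and_eq_true, beq_iff_eq] at h1
  obtain ⟨⟨h2, h3⟩, -⟩ := h1
  constructor
  · rw [quad_iff, pa_nu, lo_nu]; exact h3
  · rw [eq_iff_lo (by rw [pt_nu, pt_nu, pt_nu, pt_nu]), lo_nu, pa_nu, pa_nu, pa_nu, lo_nu, pa_nu,
      pa_nu, lo_nu, pa_nu, lo_nu]
    exact h2

/-- **the real ribbons at a bad tripod** -/
theorem quad_real (hr : Real x.1) : BadC a b x.1.1 ∧
    (nu (EH hab) (tH hab) (nu (EH hab) (tH hab) x)).1.1 = (opq x.1.1).r2 ∧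
    GateZ b (nu (EH hab) (tH hab) x).1 := by
  have h1 := RD.fact f7_all hM hab x
  unfold f7 at h1
  rw [(quad_iff hab x).1 hx] at h1
  have hd : lo x / 8 = (a : ℕ) := by
    rw [lo_div]
    exact congrArg Fin.val hr
  rw [hd] at h1
  simp only [Bool.not_true, Bool.false_or, Bool.and_eq_true, beq_iff_eq, beq_self_eq_true,
    cond_true, Bool.not_eq_true', beq_eq_false_iff_ne, ne_eq] at h1
  obtain ⟨-, ⟨⟨⟨⟨⟨⟨h2, h3⟩, h4⟩, h5⟩, h6⟩, h7⟩, h8⟩, h9⟩ := h1
  have hk : ∀ y : RD Q a b, y.1.1.1.d.1 = a → KY a b y.1.1 := by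
    intro y hy
    rcases y.rib hab with h | h
    · exact absurd (hy.trans h.symm) (ax_ne y.1.1)
    · exact h
  have l1 : loc (kappa x.1.1) = kap (pa x) (lo x) := kap_loc x.1.1
  have l2 : loc (kappa (kappa x.1.1)) = kap (pa x) (kap (pa x) (lo x)) := by
    rw [kap_loc, kappa_cor, l1]; rfl
  have l3 : loc (kappa (kappa (kappa x.1.1))) = kap (pa x) (kap (pa x) (kap (pa x) (lo x))) := by
    rw [kap_loc, kappa_cor, kappa_cor, l2]; rfl
  have l4 : loc (kappa (kappa (kappa (kappa x.1.1)))) =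
      kap (pa x) (kap (pa x) (kap (pa x) (kap (pa x) (lo x)))) := by
    rw [kap_loc, kappa_cor, kappa_cor, kappa_cor, l3]; rfl
  have l5 : loc (kappa (kappa (kappa (kappa (kappa x.1.1))))) =
      kap (pa x) (kap (pa x) (kap (pa x) (kap (pa x) (kap (pa x) (lo x))))) := by
    rw [kap_loc, kappa_cor, kappa_cor, kappa_cor, kappa_cor, l4]; rfl
  have l6 : loc (kappa (kappa (kappa (kappa (kappa (kappa x.1.1)))))) =
      kap (pa x) (kap (pa x) (kap (pa x) (kap (pa x) (kap (pa x) (kap (pa x) (lo x)))))) := by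
    rw [kap_loc, kappa_cor, kappa_cor, kappa_cor, kappa_cor, kappa_cor, l5]; rfl
  have k6 : kappa (kappa (kappa (kappa (kappa (kappa x.1.1))))) = x.1.1 := by
    apply loc_inj
    · rw [kappa_cor, kappa_cor, kappa_cor, kappa_cor, kappa_cor, kappa_cor]
    · rw [l6]; exact h2
  have k3 : (opq x.1.1).r2 = kappa (kappa (kappa x.1.1)) := (rhoi3 x.1.1).symm
  have c3 : cor (kappa (kappa (kappa x.1.1))).1 = cor x.1.1.1 := by
    rw [kappa_cor, kappa_cor, kappa_cor]
  have n2 : (nu (EH hab) (tH hab) (nu (EH hab) (tH hab) x)).1.1 =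
      kappa (kappa (kappa x.1.1)) := by
    apply loc_inj
    · rw [c3]
      show pt (nu (EH hab) (tH hab) (nu (EH hab) (tH hab) x)) = pt x
      rw [pt_nu, pt_nu]
    · show lo (nu (EH hab) (tH hab) (nu (EH hab) (tH hab) x)) = _
      rw [lo_nu, pa_nu, lo_nu, l3]; exact h4
  have hreal : (nu (EH hab) (tH hab) (nu (EH hab) (tH hab) x)).1.1.1.d.1 = a := by
    apply Fin.ext
    rw [← lo_div, lo_nu, pa_nu, lo_nu]
    exact h5
  refine ⟨⟨hk x hr, ?_, passOk_of k6, ?_⟩, n2.trans k3.symm, ?_, ?_, ?_⟩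
  · have h10 : KY a b (opq x.1.1).r2 := by
      rw [k3, ← n2]; exact hk _ hreal
    exact h10
  · intro h10
    apply h3
    have h11 : kappa (kappa (kappa x.1.1)) = x.1.1 := by
      apply cor_facet _ c3
      rw [← k3, FSt.facet_r2, h10]
    rw [h11] at l3
    exact l3.symm
  · intro h10
    have h11 : (nu (EH hab) (tH hab) x).1.1.1.e.1 = a := by
      apply Fin.ext
      rw [← eax_loc (nu (EH hab) (tH hab) x).1.1]
      show eax (lo (nu (EH hab) (tH hab) x) % 8) (lo (nu (EH hab) (tH hab) x) / 8) = _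
      rw [lo_nu]; exact h6
    exact ax_ne _ (h10.trans h11.symm)
  · apply Fin.ext
    rw [← lo_div, lo_nu]; exact h7
  · intro h10
    apply h8
    rw [← lo_nu hab x, ← pa_nu hab x]
    show kpi (pat Q (cor (nu (EH hab) (tH hab) x).1.1.1)) (loc (nu (EH hab) (tH hab) x).1.1) / 8 = _
    rw [kpi_loc]
    exact congrArg Fin.val h10

/-- the other real ribbon dart at the vertex -/
lemma quad_real2 (hr : Real x.1) :
    Real (nu (EH hab) (tH hab) (nu (EH hab) (tH hab) x)).1 := by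
  obtain ⟨h1, h2, -⟩ := quad_real hM hab hx hr
  show (nu (EH hab) (tH hab) (nu (EH hab) (tH hab) x)).1.1.1.d.1 = a
  rw [h2]
  exact h1.ky'.1

/-- **the gates at a bad tripod**: the next ribbon dart is real, and the dart belongs to a wall
orthogonal to `b` -/
theorem quad_gate (hr : ¬ Real x.1) : Real (nu (EH hab) (tH hab) x).1 ∧ GateZ b x.1 ∧
    (nu (EH hab) (tH hab) x).1.1 = kappa x.1.1 := by
  have h1 := RD.fact f7_all hM hab x
  unfold f7 at h1
  rw [(quad_iff hab x).1 hx] at h1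
  have hd : ¬ lo x / 8 = (a : ℕ) := by
    rw [lo_div]
    exact fun h' => hr (Fin.ext h')
  rw [Bool.eq_iff_iff.2 (by simp [hd] : ((lo x / 8 == (a : ℕ)) = true ↔ false = true))] at h1
  simp only [Bool.not_true, Bool.false_or, Bool.and_eq_true, beq_iff_eq, cond_false] at h1
  obtain ⟨-, h3, h2⟩ := h1
  have hR : Real (nu (EH hab) (tH hab) x).1 := by
    apply Fin.ext
    rw [← lo_div, lo_nu]; exact h2
  have hk : (nu (EH hab) (tH hab) x).1.1 = kappa x.1.1 := by
    apply loc_inj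
    · rw [kappa_cor]
      exact pt_nu hab x
    · rw [kap_loc]
      show lo (nu (EH hab) (tH hab) x) = _
      rw [lo_nu]; exact h3
  refine ⟨hR, ?_, hk⟩
  obtain ⟨q1, q2⟩ := quad_nu hM hab hx
  obtain ⟨q3, -⟩ := quad_nu hM hab q1
  obtain ⟨q5, -⟩ := quad_nu hM hab q3
  have r2 := quad_real2 hM hab q1 hR
  have r3 := (quad_real hM hab q5 r2).2.2
  rwa [q2] at r3

end

/-- thin ribbons from predicates on the real ribbon darts at the bad tripods -/
def thinOf (hM : Q.IsManifold) (hab : a ≠ b) (X Z : RD Q a b → Prop)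
    (hX : ∀ x, X x → Real x.1 ∧ Quad hab x) (hZ : ∀ x, Z x → Real x.1 ∧ Quad hab x)
    (oX : ∀ x, X x → X (nu (EH hab) (tH hab) (nu (EH hab) (tH hab) x)))
    (oZ : ∀ x, Z x → Z (nu (EH hab) (tH hab) (nu (EH hab) (tH hab) x))) : Thin Q a b where
  X := fun s => ∃ x : RD Q a b, x.1.1 = s ∧ X x
  Z := fun s => ∃ x : RD Q a b, x.1.1 = s ∧ Z x
  bX := by
    rintro _ ⟨x, rfl, h⟩
    exact (quad_real hM hab (hX x h).2 (hX x h).1).1
  bZ := by
    rintro _ ⟨x, rfl, h⟩
    exact (quad_real hM hab (hZ x h).2 (hZ x h).1).1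
  oX := by
    rintro _ ⟨x, rfl, h⟩
    exact ⟨_, (quad_real hM hab (hX x h).2 (hX x h).1).2.1, oX x h⟩
  oZ := by
    rintro _ ⟨x, rfl, h⟩
    exact ⟨_, (quad_real hM hab (hZ x h).2 (hZ x h).1).2.1, oZ x h⟩

section

variable {hM : Q.IsManifold} {hab : a ≠ b} {X Z : RD Q a b → Prop}
    {hX : ∀ x, X x → Real x.1 ∧ Quad hab x} {hZ : ∀ x, Z x → Real x.1 ∧ Quad hab x}
    {oX : ∀ x, X x → X (nu (EH hab) (tH hab) (nu (EH hab) (tH hab) x))}
    {oZ : ∀ x, Z x → Z (nu (EH hab) (tH hab) (nu (EH hab) (tH hab) x))}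

lemma thinOf_X (x : RD Q a b) : (thinOf hM hab X Z hX hZ oX oZ).X x.1.1 ↔ X x :=
  ⟨fun ⟨_, h1, h2⟩ => (RD.ext h1) ▸ h2, fun h => ⟨x, rfl, h⟩⟩

lemma thinOf_Z (x : RD Q a b) : (thinOf hM hab X Z hX hZ oX oZ).Z x.1.1 ↔ Z x :=
  ⟨fun ⟨_, h1, h2⟩ => (RD.ext h1) ▸ h2, fun h => ⟨x, rfl, h⟩⟩

end

section

variable (hM : Q.IsManifold) (hab : a ≠ b) {x : RD Q a b} (hx : Quad hab x)

include hM hx

/-- at a bad tripod there is no closed corner between two ribbons -/
lemma quad_E : ((sysH Q a b hab).E x.1) = (tH hab (nu (EH hab) (tH hab) x)).1 := by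
  have h0 : tH hab (nu (EH hab) (tH hab) x) = EH hab x := tH_tH hab (EH hab x)
  rw [h0]
  by_cases h : Rib b ((sysH Q a b hab).E x.1)
  · exact (ret_one hab x h).symm
  exfalso
  apply h
  rw [ribF_iff hab]
  show RibF a b (hfx a b x.1.1.stE)
  by_cases hr : Real x.1
  · have hw := ((quad_real hM hab hx hr).1.east hab).1
    rw [hfx_wall hw]
    left
    exact (isD_stE (a := a) x.1.2).resolve_left hw
  · obtain ⟨h1, -, h2⟩ := quad_gate hM hab hx hr
    have h3 : x.1.1.stE.1.d.1 = a := by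
      have h4 : (nu (EH hab) (tH hab) x).1.1.1.d.1 = a := h1
      rw [h2] at h4
      exact h4
    rcases (nu (EH hab) (tH hab) x).rib hab with h4 | h4
    · exact absurd (h1.trans h4.symm) (ax_ne _)
    · have h5 : ¬ x.1.1.stE.rL.1.e.1 = b := by
        rw [h2] at h4
        exact h4.2
      have h6 : x.1.1.stE.1.e.1 = b := by
        by_contra h6
        exact h5 ((rL_b hab h3).2 h6)
      rw [hfx_non h3 h6]
      exact Or.inr ⟨h3, fun h7 => (rR_b hab h3).1 h7 h6⟩

end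

end Pool.Agent.MP42.EO
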