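import Pool.Agent.MP42.TP.TF4

/-!
# Typed connected flows with passes unfold, reduced form (owner helper18)
-/

set_option autoImplicit false

namespace Pool.Agent.MP42.EO

open Pool.Agent.Helper55.UNF Pool.Agent.Helper55.UNF.GridSolid Pool.Agent.MP42.NE

variable {P : GridSolid} {a b : Fin 3} {hab : a ≠ b}

namespace TFl

variable (S : TFl P a b hab)

/-- predicates that are constant on the curves -/
structure RCon (g : P.FSt → ℕ → Prop) : Prop where
  cE : ∀ x, IsD a x → ∀ j < S.sd x, (g x ((S.vv x).toNat + S.p x + j) ↔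
    g (hE a b x) ((-S.vv (hE a b x)).toNat + S.q (hE a b x).r2 + j))
  cp : ∀ x, IsD a x → ∀ j : ℕ, (j : ℤ) < S.vv x → (g x j ↔
    g (hN a x) ((-S.vv (hN a x)).toNat + S.ee (hr a b (hN a x)) + j))
  cm : ∀ x, IsD a x → ∀ j : ℕ, (j : ℤ) < -S.vv x → (g x j ↔
    g (hN a x) ((S.vv (hN a x)).toNat + S.ee (hN a x) + j))
  cr : ∀ x, IsD a x → ∀ j < S.cn x, (g (hr a b x) j ↔ g x (S.cn x - 1 - j))
  cX : ∀ s, S.p s = 1 → (g s (S.vv s).toNat ↔ g (opq s).rL (S.ee (opq s).r2 - 1))
  cZ : ∀ s, S.q s = 1 → (g s.rL (S.ee s.rL - 1) ↔ g (opq s) (-S.vv (opq s)).toNat)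

/-- the flow is one closed curve -/
def RConn : Prop :=
  ∀ g, S.RCon g → ∃ c : Prop, ∀ x, IsD a x → ∀ j < S.cn x, (g x j ↔ c)

variable {S}

lemma KZ_wz (hab : a ≠ b) {t : P.FSt} (h : KZ a b t) : WZ a b t.rL ∧ t.rL.rR = t :=
  ⟨⟨HFl.rL_dart hab h.1 h.2, h.1⟩, FSt.rL_rR t⟩

lemma cn_in {x : P.FSt} (h : IsD a x) {j : ℕ} (hj : (j : ℤ) < -S.vv x) : j < S.cn x := by
  have h1 := bal_any (S := S) h
  unfold cn
  omega

/-- validity of the strand over a south side -/
lemma vv_of {x y : P.FSt} (h : x.1.e.1 = a) {j : ℕ} (hj : (j : ℤ) < -S.vv x) (hy : x.stN = y) :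
    (S.vv y).toNat + S.ee y + j < S.cn y := by
  subst hy
  have h1 := vv_stN (S := S) h
  unfold cn
  rw [(HFl.hN_w (b := b) h).2]
  omega

/-- validity of the strand over a north side -/
lemma vv_of' {x : P.FSt} (h : x.1.e.1 = a) {j : ℕ} (hj : (j : ℤ) < S.vv x) :
    (-S.vv x.stN).toNat + S.ee x.stN.r2 + j < S.cn x.stN := by
  have h1 := vv_stN (S := S) h
  have h2 := bal_wall (S := S) ((stN_ax x).trans h)
  unfold cn
  rw [(HFl.hN_w (b := b) h).2]
  omega

/-- the strands of a pass are admissible -/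
lemma cn_p {s : P.FSt} (h : S.p s = 1) : (S.vv s).toNat < S.cn s ∧
    S.ee (opq s).r2 - 1 < S.cn (opq s).rL := by
  have hpq := S.pq s
  have hb := S.bad s (by omega)
  obtain ⟨s1, -⟩ := sums (S := S) hb.ky
  obtain ⟨-, -, t3, -⟩ := sums (S := S) hb.ky'
  have hp := S.po s h
  have h1 := bal_any (S := S) hb.ky'.isD'
  rw [(HFl.hN_diag hab hb.ky').2] at h1
  unfold cn
  rw [(HFl.hN_diag hab hb.ky').2]
  omega

lemma cn_q {s : P.FSt} (h : S.q s = 1) : S.ee s.rL - 1 < S.cn s.rL ∧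
    (-S.vv (opq s)).toNat < S.cn (opq s) := by
  have hpq := S.pq s
  have hb := S.bad s (by omega)
  obtain ⟨-, s2, -⟩ := sums (S := S) hb.ky
  obtain ⟨-, -, -, t4⟩ := sums (S := S) hb.ky'
  have hq := S.qo s h
  have h1 := bal_any (S := S) hb.ky'.isD
  rw [hr_nom hb.ky'.1 hb.ky'.2] at h1
  unfold cn
  rw [hr_nom hb.ky'.1 hb.ky'.2]
  omega

/-! ## Connectedness -/

lemma conn (hC : S.RConn) : S.gf.orb.Conn := by
  intro T h1 h2
  have hs : ∀ s, S.gf.Va s → (T (S.gf.sc s) ↔ T s) := h1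
  have hrv : ∀ s, S.gf.Va s → (T (S.gf.rv s) ↔ T s) := h2
  have key : S.RCon (fun x j => T (S.F x j)) := by
    constructor
    · intro x hx j hj
      obtain ⟨h3, -⟩ := F_E (S := S) hx hj
      have h5 := sd_add (S := S) hx
      unfold co at h5
      have h4 := hs _ (F_va (S := S) hx (j := (S.vv x).toNat + S.p x + j) (by unfold cn; omega))
      rw [h3] at h4
      exact h4.symm
    · intro x hx j hj
      rcases rib_cases (S := S) hx (by omega) with h3 | h3
      · obtain ⟨n1, n2⟩ := HFl.hN_w (b := b) h3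
        have h4 := (F_p (S := S) h3 (j := j) hj).1
        have h5 := hs _ (F_va (S := S) hx (j := j) (by unfold cn; omega))
        rw [h4] at h5
        rw [n1, n2]
        exact h5.symm
      · obtain ⟨n1, n2⟩ := HFl.hN_diag hab h3
        have h4 := (F_diag (S := S) h3 j).1 hj
        rw [n1, n2, ← h4]
    · intro x hx j hj
      rcases rib_cases (S := S) hx (by omega) with h3 | h3
      · obtain ⟨n1, n2⟩ := HFl.hN_w (b := b) h3
        obtain ⟨h4, h5, -⟩ := F_m (S := S) h3 (j := j) hj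
        have h6 := hs _ h4
        rw [h5] at h6
        rw [n1]
        exact h6
      · obtain ⟨n1, n2⟩ := HFl.hN_diag hab h3
        have h4 := (F_diag (S := S) h3 j).2 hj
        rw [n1, ← h4]
    · intro x hx t ht
      have h3 := F_r (S := S) hx ht
      have h4 := hrv _ (F_va (S := S) hx (j := S.cn x - 1 - t) (by omega))
      rw [h3]
      exact h4
    · intro s h3
      have hb := S.bad s (by have := S.pq s; omega)
      obtain ⟨-, h4, -⟩ := F_p1 (S := S) h3
      have h5 := hs _ (F_va (S := S) hb.ky.isD (cn_p h3).1)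
      rw [h4] at h5
      exact h5.symm
    · intro s h3
      have hb := S.bad s (by have := S.pq s; omega)
      obtain ⟨-, h4, -⟩ := F_q1 (S := S) h3
      have h5 := hs _ (F_va (S := S) hb.ky.isD' (cn_q h3).1)
      rw [h4] at h5
      exact h5.symm
  obtain ⟨c, hc⟩ := hC _ key
  have hall : ∀ s, S.gf.Va s → (T s ↔ c) := by
    intro s hva
    obtain ⟨x, hx, j, hj, h3⟩ := F_surj hva
    have h4 := hc x hx j hj
    rw [← h3]
    exact h4
  intro s s' h3 h4
  rw [hall s h3, hall s' h4]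

/-! ## Types -/

section

variable {g : P.FSt → ℕ → Bool}

/-- types of the facet strands -/
noncomputable def ty (T : S.Typ g) (s0 : P.FSt × ℕ) : S.gf.Ty s0 where
  τ := S.tau g
  τr := fun s hva => by
    obtain ⟨x, hx, j, hj, rfl⟩ := F_surj hva
    have hj' : S.cn x - 1 - j < S.cn x := by omega
    have h1 := F_r (S := S) hx hj'
    rw [show S.cn x - 1 - (S.cn x - 1 - j) = j by omega] at h1
    have h2 : S.cn (hr a b x) = S.cn x := by
      have h3 := bal_any (S := S) hx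
      unfold cn
      rw [hr_hr hab]
      omega
    rw [← h1, T.tau_F (isD_hr hx) (by rw [h2]; exact hj'), T.tau_F hx hj,
      T.gr x hx _ hj', show S.cn x - 1 - (S.cn x - 1 - j) = j by omega]
  fE := fun s hva _ hx hf => by
    rcases (nom3 hab).1 hva.1 with h1 | h1 | h1
    · obtain ⟨i, hi, h2⟩ := rep_E hx (Or.inr h1)
      have := T.tau_ring h1.isD hi
      rwa [h2] at this
    · obtain ⟨x, j, h2, h3, h4, h5⟩ := rep_XE hx h1
      obtain ⟨f1, f2, f3, f4⟩ := F_m (S := S) h2 h4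
      obtain ⟨k1, k2⟩ := KZ_wz hab h1
      rw [h3] at f1 f2 f4
      obtain ⟨-, -, f5⟩ := f4 k1
      rw [h5] at f1 f2
      have f6 : WZ a b x := f5.1 (by rw [FSt.rL_rR]; exact hf)
      have hg := T.gm x (Or.inr h2) j h4
      rw [(HFl.hN_w (b := b) h2).1, okF_ZZ f6 (by rw [h3]; exact k1), h3] at hg
      have hv := vv_of (S := S) h2 h4 h3
      rw [f2, T.tau_F (Or.inr h2) (cn_in (Or.inr h2) h4), ← h5,
        T.tau_F (h1.isD hab) hv]
      exact hg.1
    · obtain ⟨i, hi, h2⟩ := rep_E hx (Or.inl h1)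
      have := T.tau_ring h1.isD hi
      rwa [h2] at this
  gE := fun s hva _ hx hf => by
    rcases (nom3 hab).1 hva.1 with h1 | h1 | h1
    · exfalso
      apply hf
      rcases HFl.kind_stE hab (Or.inr h1) with ⟨h', -⟩ | ⟨h', -⟩
      · exact h'.nom hab
      · exact h'.nom hab
    · obtain ⟨x, j, h2, h3, h4, h5⟩ := rep_XE hx h1
      obtain ⟨f1, f2, f3, f4⟩ := F_m (S := S) h2 h4
      obtain ⟨k1, k2⟩ := KZ_wz hab h1
      rw [h3] at f1 f2 f4
      obtain ⟨-, -, f5⟩ := f4 k1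
      rw [h5] at f1 f2
      have f6 : WX a b x := by
        rcases wall_cases a b h2 with w | w
        · exact w
        · have := f5.2 w
          rw [FSt.rL_rR] at this
          exact absurd this hf
      have hg := T.gm x (Or.inr h2) j h4
      rw [(HFl.hN_w (b := b) h2).1, okF_XZ f6 (by rw [h3]; exact k1), h3] at hg
      have hv := vv_of (S := S) h2 h4 h3
      rw [f2, T.tau_F (Or.inr h2) (cn_in (Or.inr h2) h4), ← h5,
        T.tau_F (h1.isD hab) hv]
      exact ⟨hg.2, hg.1⟩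
    · exfalso
      apply hf
      rcases HFl.kind_stE hab (Or.inl h1) with ⟨h', -⟩ | ⟨h', -⟩
      · exact h'.nom hab
      · exact h'.nom hab
  fN := fun s hva _ hx hf => by
    rcases (nom3 hab).1 hva.1 with h1 | h1 | h1
    · obtain ⟨i, hi, h2⟩ := rep_N hx (Or.inr h1)
      have := T.tau_ring h1.isD' hi
      rwa [h2] at this
    · obtain ⟨i, hi, h2⟩ := rep_N hx (Or.inl h1)
      have := T.tau_ring (h1.isD hab) hi
      rwa [h2] at this
    · obtain ⟨h2, h3⟩ := rep_XN hx h1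
      obtain ⟨f1, f2, -⟩ := F_p (S := S) h1.2.2 h2
      obtain ⟨-, -, f5⟩ := f2 ⟨h1.2.2, h1.2.1⟩
      have f6 : WX a b s.1.stN := f5.1 hf
      have hg := T.gp s.1 h1.isD s.2 h2
      rw [(HFl.hN_w (b := b) h1.2.2).1, (HFl.hN_w (b := b) h1.2.2).2,
        okF_XX ⟨h1.2.2, h1.2.1⟩ f6] at hg
      have hv := vv_of' (S := S) h1.2.2 h2
      rw [h3] at f1
      have e1 : S.tau g s = g s.1 s.2 := by
        have := T.tau_F h1.isD (j := s.2) (by unfold cn; omega)
        rwa [h3] at this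
      rw [f1, T.tau_F (Or.inr ((stN_ax _).trans h1.2.2)) hv, e1]
      exact hg.1.symm
  gN := fun s hva _ hx hf => by
    rcases (nom3 hab).1 hva.1 with h1 | h1 | h1
    · exfalso
      apply hf
      rcases HFl.kind_stN hab (Or.inr h1) with ⟨h', -⟩ | ⟨h', -⟩
      · exact h'.nom hab
      · exact h'.nom hab
    · exfalso
      apply hf
      rcases HFl.kind_stN hab (Or.inl h1) with ⟨h', -⟩ | ⟨h', -⟩
      · exact h'.nom hab
      · exact h'.nom hab
    · obtain ⟨h2, h3⟩ := rep_XN hx h1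
      obtain ⟨f1, f2, -⟩ := F_p (S := S) h1.2.2 h2
      obtain ⟨-, -, f5⟩ := f2 ⟨h1.2.2, h1.2.1⟩
      have f6 : WZ a b s.1.stN := by
        rcases wall_cases a b ((stN_ax s.1).trans h1.2.2) with w | w
        · exact absurd (f5.2 w) hf
        · exact w
      have hg := T.gp s.1 h1.isD s.2 h2
      rw [(HFl.hN_w (b := b) h1.2.2).1, (HFl.hN_w (b := b) h1.2.2).2,
        okF_XZ ⟨h1.2.2, h1.2.1⟩ f6] at hg
      have hv := vv_of' (S := S) h1.2.2 h2
      rw [h3] at f1
      have e1 : S.tau g s = g s.1 s.2 := by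
        have := T.tau_F h1.isD (j := s.2) (by unfold cn; omega)
        rwa [h3] at this
      rw [f1, T.tau_F (Or.inr ((stN_ax _).trans h1.2.2)) hv, e1]
      exact hg
  fW := fun s hva _ hx hf => by
    obtain ⟨h1, h2, h3⟩ := rep_XW hva.1 hx
    obtain ⟨k1, k2⟩ := KZ_wz hab h1
    obtain ⟨f1, -, f2⟩ := F_p (S := S) k1.1 h2
    obtain ⟨-, -, f5⟩ := f2 k1
    have f6 : WZ a b s.1.rL.stN := f5.1 (by rw [FSt.rL_rR]; exact hf)
    have hg := T.gp s.1.rL (h1.isD hab) s.2 h2
    rw [(HFl.hN_w (b := b) k1.1).1, (HFl.hN_w (b := b) k1.1).2, okF_ZZ k1 f6] at hg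
    have e1 : S.tau g s = g s.1.rL s.2 := by
      have := T.tau_F (h1.isD hab) (j := s.2) (by unfold cn; omega)
      rwa [h3] at this
    rw [e1]
    exact hg.2 rfl
  fS := fun s hva _ hx hf => by
    obtain ⟨h1, x, j, h2, h3, h4, h5⟩ := rep_XS hva.1 hx
    obtain ⟨f1, f2, f3, f4⟩ := F_m (S := S) h2 h4
    rw [h3] at f1 f2 f3
    obtain ⟨-, -, f5⟩ := f3 ⟨h1.2.2, h1.2.1⟩
    have f6 : WX a b x := f5.1 hf
    have hg := T.gm x (Or.inr h2) j h4
    rw [(HFl.hN_w (b := b) h2).1, okF_XX f6 (by rw [h3]; exact ⟨h1.2.2, h1.2.1⟩), h3] at hg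
    have hv := vv_of (S := S) h2 h4 h3
    rw [← h5, T.tau_F h1.isD hv, ← hg.1]
    exact hg.2 rfl
  fP := fun s _ _ hx => by
    have hpq := S.pq s.1
    rcases rep_XP hx with ⟨h1, h2⟩ | ⟨h1, h2⟩
    · have hb := S.bad s.1 (by omega)
      obtain ⟨-, h4, -⟩ := F_p1 (S := S) h1
      obtain ⟨c1, c2⟩ := cn_p h1
      have h5 := T.tau_F hb.ky.isD c1
      have h6 := T.tau_F hb.ky'.isD' c2
      rw [h2] at h4 h5
      rw [h4, h6, h5]
      exact T.gX s.1 h1
    · have hb := S.bad s.1 (by omega)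
      obtain ⟨-, h4, -⟩ := F_q1 (S := S) h1
      obtain ⟨c1, c2⟩ := cn_q h1
      have h5 := T.tau_F hb.ky.isD' c1
      have h6 := T.tau_F hb.ky'.isD c2
      rw [h2] at h4 h5
      rw [h4, h6, h5]
      exact T.gZ s.1 h1

/-- **Typed connected flows with passes unfold**, reduced form. -/
theorem hasEdgeUnfolding (T : S.Typ g) (hC : S.RConn)
    (hpos : ∀ x, 0 < S.e x) (F : P.Facet) {N : ℕ} (hN : ∀ x, S.e x ≤ N)
    (hN' : ∀ x, |S.v x| ≤ N) (hK : 0 < 2 * (5 * (N + 1) + 1) + 1) :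
    (P.refine (2 * (5 * (N + 1) + 1) + 1) hK).HasEdgeUnfolding := by
  have hee : ∀ t : P.FSt, IsD a t → 0 < S.ee t := fun t h => by
    rw [ee_eq h]; exact hpos _
  have hee' : ∀ t : P.FSt, S.sd t ≤ N := fun t => by
    have h0 : S.ee t ≤ N := by
      by_cases h : IsD a t
      · rw [ee_eq h]; exact hN _
      · have : S.ee t = 0 := dif_neg h
        omega
    unfold sd; omega
  have hvv' : ∀ t : P.FSt, |S.vv t| ≤ N := fun t => by
    by_cases h : IsD a t
    · rw [vv_eq h]; exact hN' _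
    · have : S.vv t = 0 := dif_neg h
      rw [this]
      simp
  have hM : ∀ t, S.gf.nom t → 0 < S.gf.M t := by
    intro t h
    rcases (nom3 hab).1 h with h1 | h1 | h1
    · have := hee t h1.isD
      rw [M_Y h1]; omega
    · have := hee t.rL (h1.isD hab)
      rw [M_Z h1]; omega
    · have := hee t h1.isD
      rw [M_X h1]; omega
  have habs : ∀ z : ℤ, |z| ≤ N → z.natAbs ≤ N := fun z hz => by
    rw [Int.abs_eq_natAbs] at hz
    exact_mod_cast hz
  have hn : ∀ t, S.gf.n t ≤ N := by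
    intro t
    by_cases h : S.gf.nom t
    · rw [GFlow.n_nom h]
      show (S.fA t.r2).natAbs ≤ N
      by_cases h1 : t.1.d.1 = b
      · rw [fA_b' h1, Int.natAbs_neg]
        exact habs _ (hvv' _)
      · rw [fA_n' h1]
        exact hee' t
    · rw [GFlow.n_not h]
      show (S.fB t.rL).natAbs ≤ N
      by_cases h1 : t.rL.1.e.1 = a
      · rw [fB_a h1]
        exact habs _ (hvv' _)
      · rw [fB_n h1]
        exact hee' _
  obtain ⟨t, h1, h2⟩ := S.gf.nom_ex F
  exact GFlow.hasEdgeUnfolding (ty T (t, 0)) ⟨h1, hM t h1⟩ (conn hC) hM hn hK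

end

end TFl

end Pool.Agent.MP42.EO
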