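import Pool.Agent.MP42.TP.TF5

/-!
# The gaps of the system with thin ribbons (owner helper18)
-/

set_option autoImplicit false

namespace Pool.Agent.MP42.EO

open Pool.Agent.Helper55.UNF Pool.Agent.Helper55.UNF.GridSolid Pool.Agent.MP42.NE

variable {P : GridSolid} {a b : Fin 3} {T : Thin P a b}

namespace Thin

/-- the thin dart of the gap after `x` belongs to the facet of `x` -/
def own (T : Thin P a b) (x : P.FSt) : Prop := T.X x ∨ T.Z (hr a b x).r2

lemma own_cases (hab : a ≠ b) {x : P.FSt} (h : T.own x) :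
    T.X x ∨ ∃ s, T.Z s ∧ x = s.rL := by
  rcases h with h | h
  · exact Or.inl h
  right
  refine ⟨_, h, ?_⟩
  have h1 := (T.bZ _ h).ky
  have h2 : KY a b (hr a b x) := h1
  have h3 := hr_hr hab x
  rw [hr_nom h2.1 h2.2] at h3
  rw [FSt.r2_rL, h3]

lemma own_d (hab : a ≠ b) {x : P.FSt} (h : T.own x) : x.1.d.1 = a := by
  rcases own_cases hab h with h1 | ⟨s, h1, rfl⟩
  · exact (T.bX _ h1).ky.1
  · exact (T.bZ _ h1).ky.1

lemma own_stE (hab : a ≠ b) {x : P.FSt} (h : T.own x) : ¬ x.stE.1.d.1 = a := by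
  rcases own_cases hab h with h1 | ⟨s, h1, rfl⟩
  · exact ((T.bX _ h1).east hab).1
  · rw [stE_rL]
    have h2 := (T.bZ _ h1).north hab
    exact fun h' => hab (h'.symm.trans h2.1)

/-- the two ways to belong to a facet exclude each other -/
lemma X_not (hab : a ≠ b) {x : P.FSt} (h : T.X x) : ¬ T.Z (hr a b x).r2 := by
  intro h'
  have h1 := (T.bX _ h).ky
  have h2 : KY a b (hr a b x) := (T.bZ _ h').ky
  rw [hr_nom h1.1 h1.2] at h2
  exact TFl.not_KY_rR hab h1 h2

section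

variable (hab : a ≠ b)

lemma om_val (x : HD P a) : ((sysH P a b hab).om x).1 = x.1.stE.r2 := by
  show hr a b (hfx a b x.1.stE) = _
  rw [hr_hfx hab]

lemma hE_om (x : HD P a) : hE a b ((sysH P a b hab).om x).1 = hr a b x.1 :=
  congrArg Subtype.val ((sysH P a b hab).E_om x)

lemma hr_om (x : HD P a) : hr a b ((sysH P a b hab).om x).1 = hE a b x.1 := by
  show hr a b (hr a b (hE a b x.1)) = _
  rw [hr_hr hab]

lemma own_om {x : HD P a} (h : T.own x.1) : ¬ T.own ((sysH P a b hab).om x).1 := by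
  intro h'
  have h1 := own_d hab h'
  rw [om_val] at h1
  exact own_stE hab h h1

lemma la_own {x : HD P a} (h : 0 < T.la x) : T.own x.1 ∨ T.own ((sysH P a b hab).om x).1 := by
  rcases la_pos.1 h with h1 | h1
  · exact Or.inl (Or.inl h1)
  · right; right
    rw [hr_om]; exact h1

lemma n_def (x : HD P a) : (T.cuts hab).n x = T.la x + T.la ((sysH P a b hab).om x) := rfl

lemma n_pos {x : HD P a} : 0 < (T.cuts hab).n x ↔
    (T.own x.1 ∨ T.own ((sysH P a b hab).om x).1) := by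
  rw [n_def]
  constructor
  · intro h
    rcases Nat.eq_zero_or_pos (T.la x) with h1 | h1
    · have h3 : 0 < T.la ((sysH P a b hab).om x) := by rw [h1, Nat.zero_add] at h; exact h
      have h2 := la_own hab (x := (sysH P a b hab).om x) h3
      rw [Sys.om_om] at h2
      exact h2.symm
    · exact la_own hab h1
  · rintro ((h | h) | (h | h))
    · have := la_one (T := T) (d := x) (Or.inl h)
      omega
    · have := la_one (T := T) (d := (sysH P a b hab).om x) (Or.inr (by rw [hE_om]; exact h))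
      omega
    · have := la_one (T := T) (d := (sysH P a b hab).om x) (Or.inl h)
      omega
    · have := la_one (T := T) (d := x) (Or.inr (by rw [← hr_om hab]; exact h))
      omega

lemma n_le (x : HD P a) : (T.cuts hab).n x ≤ 1 := by
  rw [n_def]
  have h1 := T.la_le x
  have h2 := T.la_le ((sysH P a b hab).om x)
  by_contra h3
  have h4 : 0 < T.la x := by omega
  have h5 : 0 < T.la ((sysH P a b hab).om x) := by omega
  rcases la_pos.1 h4 with h6 | h6 <;> rcases la_pos.1 h5 with h7 | h7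
  · exact own_om hab (T := T) (x := x) (Or.inl h6) (Or.inl h7)
  · rw [hE_om] at h7
    exact X_not hab h6 h7
  · rw [← hr_om hab] at h6
    exact X_not hab h7 h6
  · rw [hE_om] at h7
    rw [← hr_om hab] at h6
    exact own_om hab (T := T) (x := x) (Or.inr h7) (Or.inr h6)

/-! ## The darts -/

/-- the dart in the gap -/
def d1 (T : Thin P a b) (hab : a ≠ b) (x : HD P a) (h : 1 ≤ (T.cuts hab).n x) : T.TD hab :=
  ⟨(x, 1), h⟩

variable {hab}

lemma TD_cases (p : T.TD hab) : (∃ x, p = d0 T hab x) ∨ ∃ x h, p = d1 T hab x h := by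
  obtain ⟨⟨x, i⟩, hi⟩ := p
  have hi' : i ≤ (T.cuts hab).n x := hi
  have h1 := n_le (T := T) hab x
  have h2 : i = 0 ∨ i = 1 := by omega
  rcases h2 with rfl | rfl
  · exact Or.inl ⟨x, rfl⟩
  · exact Or.inr ⟨x, hi, rfl⟩

lemma E_d0 {x : HD P a} (h : ¬ 1 ≤ (T.cuts hab).n x) :
    (T.tsys hab).E (d0 T hab x) = d0 T hab ((sysH P a b hab).E x) := by
  have h1 : (T.cuts hab).n x = 0 := by omega
  have h2 := (T.cuts hab).EE_last x
  have h3 : (T.cuts hab).dd x ((T.cuts hab).n x) le_rfl = d0 T hab x := by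
    rw [Sys.Cuts.ext_iff']
    exact ⟨rfl, h1⟩
  rw [h3] at h2
  exact h2

lemma E_d0' {x : HD P a} (h : 1 ≤ (T.cuts hab).n x) :
    (T.tsys hab).E (d0 T hab x) = d1 T hab x h :=
  (T.cuts hab).EE_lt h

lemma E_d1 {x : HD P a} (h : 1 ≤ (T.cuts hab).n x) :
    (T.tsys hab).E (d1 T hab x h) = d0 T hab ((sysH P a b hab).E x) := by
  have h1 : (T.cuts hab).n x = 1 := le_antisymm (n_le hab x) h
  have h2 := (T.cuts hab).EE_last x
  have h3 : (T.cuts hab).dd x ((T.cuts hab).n x) le_rfl = d1 T hab x h := by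
    rw [Sys.Cuts.ext_iff']
    exact ⟨rfl, h1⟩
  rw [h3] at h2
  exact h2

/-- the last dart of a gap -/
lemma om_last (x : HD P a) : (T.tsys hab).om ((T.cuts hab).dd x ((T.cuts hab).n x) le_rfl) =
    d0 T hab ((sysH P a b hab).om x) := by
  rw [Sys.Cuts.sys_om, Sys.Cuts.ext_iff']
  refine ⟨rfl, ?_⟩
  show (T.cuts hab).n x - (T.cuts hab).n x = 0
  omega

lemma r_d0 (x : HD P a) : (T.tsys hab).r (d0 T hab x) = d0 T hab ((sysH P a b hab).r x) := by
  have h1 := (T.cuts hab).EE_last ((sysH P a b hab).E.symm x)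
  rw [Equiv.apply_symm_apply] at h1
  have h2 := om_last (T := T) (hab := hab) ((sysH P a b hab).E.symm x)
  have h3 : (sysH P a b hab).om ((sysH P a b hab).E.symm x) = (sysH P a b hab).r x := by
    show (sysH P a b hab).r ((sysH P a b hab).E ((sysH P a b hab).E.symm x)) = _
    rw [Equiv.apply_symm_apply]
  rw [h3] at h2
  rw [← h2]
  show _ = (T.tsys hab).r ((T.cuts hab).EE _)
  rw [h1]
  rfl

lemma n_om' {x : HD P a} (h : 1 ≤ (T.cuts hab).n x) :
    1 ≤ (T.cuts hab).n ((sysH P a b hab).om x) := by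
  rw [Sys.Cuts.n_om]; exact h

lemma r_d1 {x : HD P a} (h : 1 ≤ (T.cuts hab).n x) :
    (T.tsys hab).r (d1 T hab x h) = d1 T hab ((sysH P a b hab).om x) (n_om' h) := by
  rw [← E_d0' h]
  show (T.tsys hab).om (d0 T hab x) = _
  rw [Sys.Cuts.sys_om, Sys.Cuts.ext_iff']
  refine ⟨rfl, ?_⟩
  show (T.cuts hab).n x - 0 = 1
  have := n_le (T := T) hab x
  omega

lemma om_d0 {x : HD P a} (h : ¬ 1 ≤ (T.cuts hab).n x) :
    (T.tsys hab).om (d0 T hab x) = d0 T hab ((sysH P a b hab).om x) := by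
  show (T.tsys hab).r ((T.tsys hab).E (d0 T hab x)) = _
  rw [E_d0 h, r_d0]; rfl

lemma om_d0' {x : HD P a} (h : 1 ≤ (T.cuts hab).n x) :
    (T.tsys hab).om (d0 T hab x) = d1 T hab ((sysH P a b hab).om x) (n_om' h) := by
  show (T.tsys hab).r ((T.tsys hab).E (d0 T hab x)) = _
  rw [E_d0' h, r_d1]

lemma om_d1 {x : HD P a} (h : 1 ≤ (T.cuts hab).n x) :
    (T.tsys hab).om (d1 T hab x h) = d0 T hab ((sysH P a b hab).om x) := by
  show (T.tsys hab).r ((T.tsys hab).E (d1 T hab x h)) = _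
  rw [E_d1 h, r_d0]; rfl

lemma N_eq {D : Type*} (S : Sys D) (p : D) : S.N p = S.r (S.ta p) := by
  unfold Sys.ta
  rw [S.rr]

lemma ta_d0 (x : HD P a) : (T.tsys hab).ta (d0 T hab x) = d0 T hab ((sysH P a b hab).ta x) := by
  rw [Sys.Cuts.sys_ta]
  exact (T.cuts hab).tt_zero x

lemma N_d0 (x : HD P a) : (T.tsys hab).N (d0 T hab x) = d0 T hab ((sysH P a b hab).N x) := by
  rw [N_eq, ta_d0, r_d0, ← N_eq]

lemma n_la {x : HD P a} (h : 0 < T.la x) : 1 ≤ (T.cuts hab).n x := by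
  rw [n_def]; omega

lemma la_cpd {x : HD P a} (h : 0 < T.la x) : 0 < T.la (T.cpd hab x) := by
  have h1 := cpd_or hab (la_pos.1 h)
  exact la_pos.2 (h1.imp And.right And.right)

lemma ta_d1 {x : HD P a} (h : 0 < T.la x) :
    (T.tsys hab).ta (d1 T hab x (n_la h)) = d1 T hab (T.cpd hab x) (n_la (la_cpd h)) := by
  rw [Sys.Cuts.sys_ta]
  apply Subtype.ext
  exact (T.cuts hab).tt_thin (d1 T hab x (n_la h)) Nat.one_pos h

lemma N_d1 {x : HD P a} (h : 0 < T.la x) :
    (T.tsys hab).N (d1 T hab x (n_la h)) =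
      d1 T hab ((sysH P a b hab).om (T.cpd hab x)) (n_om' (n_la (la_cpd h))) := by
  rw [N_eq, ta_d1 h, r_d1]

lemma ribT_d1 {x : HD P a} {h : 1 ≤ (T.cuts hab).n x} : RibT (d1 T hab x h) ↔ 0 < T.la x := by
  unfold RibT
  show (if (1 : ℕ) = 0 then Rib b x else 1 ≤ T.la x) ↔ _
  rw [if_neg one_ne_zero]
  exact Iff.rfl

end

/-! ## Flows -/

section

variable {hab : a ≠ b} {e : T.TD hab → ℕ} {v : T.TD hab → ℤ}

/-- strands over the thin dart after `x` -/
noncomputable def tv (v : T.TD hab → ℤ) (x : HD P a) : ℤ :=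
  if h : 1 ≤ (T.cuts hab).n x then v (d1 T hab x h) else 0

lemma tv_pos {x : HD P a} (h : 1 ≤ (T.cuts hab).n x) : tv v x = v (d1 T hab x h) := dif_pos h

/-- the admissible flows -/
structure Adm (e : T.TD hab → ℕ) (v : T.TD hab → ℤ) : Prop where
  fl : (T.tsys hab).Fl e v
  h0 : ∀ p : T.TD hab, ¬ RibT p → v p = 0
  h1 : ∀ p : T.TD hab, p.1.2 ≠ 0 → |v p| ≤ 1
  sp : ∀ p : T.TD hab, p.1.2 ≠ 0 → 0 < v p → T.X p.1.1.1
  sm : ∀ p : T.TD hab, p.1.2 ≠ 0 → v p < 0 → ¬ T.X p.1.1.1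
  xz : ∀ s, T.X s → ¬ T.Z s

variable (H : Adm e v)

include H

lemma tv_X {x : HD P a} (h : 0 < tv v x) : T.X x.1 := by
  unfold tv at h
  split_ifs at h with h1
  · exact H.sp _ one_ne_zero h
  · omega

lemma tv_la {x : HD P a} (h : tv v x ≠ 0) : 0 < T.la x := by
  by_cases h1 : 1 ≤ (T.cuts hab).n x
  · by_contra h2
    rw [tv_pos h1] at h
    exact h (H.h0 _ (fun h' => h2 (ribT_d1.1 h')))
  · exact absurd (dif_neg h1) h

lemma tv_Z {x : HD P a} (h : tv v x < 0) : T.Z (hE a b x.1).r2 := by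
  rcases la_pos.1 (tv_la H h.ne) with h1 | h1
  · exfalso
    have h2 : 1 ≤ (T.cuts hab).n x := n_la (tv_la H h.ne)
    rw [tv_pos h2] at h
    exact H.sm _ one_ne_zero h h1
  · exact h1

lemma tv_abs (x : HD P a) : -1 ≤ tv v x ∧ tv v x ≤ 1 := by
  unfold tv
  split_ifs with h
  · exact abs_le.1 (H.h1 _ one_ne_zero)
  · omega

lemma own_sign {x : HD P a} (h : T.own x.1) : 0 ≤ tv v x ∧
    tv v ((sysH P a b hab).om x) ≤ 0 := by
  constructor
  · by_contra h1
    have h2 := tv_Z H (not_le.1 h1)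
    rw [← hr_om hab] at h2
    exact own_om hab h (Or.inr h2)
  · by_contra h1
    exact own_om hab h (Or.inl (tv_X H (not_le.1 h1)))

lemma own_sign' {x : HD P a} (h : T.own ((sysH P a b hab).om x).1) : tv v x ≤ 0 ∧
    0 ≤ tv v ((sysH P a b hab).om x) := by
  have := own_sign H h
  rw [Sys.om_om] at this
  exact this.symm

lemma tv_or (x : HD P a) : tv v x = 0 ∨ tv v ((sysH P a b hab).om x) = 0 := by
  by_contra h
  push Not at h
  have h1 := tv_la H h.1
  have h2 := tv_la H h.2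
  have h3 := n_le (T := T) hab x
  rw [n_def] at h3
  omega

omit H in
lemma tv_not {x : HD P a} (h : ¬ 1 ≤ (T.cuts hab).n x) : tv v x = 0 ∧
    tv v ((sysH P a b hab).om x) = 0 := by
  refine ⟨dif_neg h, dif_neg ?_⟩
  rw [Sys.Cuts.n_om]; exact h

lemma e_d1 {x : HD P a} (h : 1 ≤ (T.cuts hab).n x) :
    e (d1 T hab x h) = e (d0 T hab ((sysH P a b hab).om x)) := by
  have h1 := H.fl.e_om (d1 T hab x h)
  rw [om_d1] at h1
  exact h1.symm

lemma e_om0 {x : HD P a} (h : ¬ 1 ≤ (T.cuts hab).n x) :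
    e (d0 T hab ((sysH P a b hab).om x)) = e (d0 T hab x) := by
  have h1 := H.fl.e_om (d0 T hab x)
  rw [om_d0 h] at h1
  exact h1

/-- the strands over the two sides of a gap -/
lemma e_gap (x : HD P a) : (e (d0 T hab x) : ℤ) - tv v x =
    e (d0 T hab ((sysH P a b hab).om x)) - tv v ((sysH P a b hab).om x) := by
  by_cases h : 1 ≤ (T.cuts hab).n x
  · have h1 := H.fl.bE (d0 T hab x)
    rw [om_d0' h, E_d0' h, e_d1 H h] at h1
    rw [tv_pos h, tv_pos (n_om' h)]
    omega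
  · obtain ⟨h1, h2⟩ := tv_not h
    rw [h1, h2, e_om0 H h]

end

end Thin

end Pool.Agent.MP42.EO
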