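import Pool.Agent.MP42.TP.TF6

/-!
# The reduced flow of a flow with thin ribbons (owner helper18)
-/

set_option autoImplicit false

namespace Pool.Agent.MP42.EO

open Pool.Agent.Helper55.UNF Pool.Agent.Helper55.UNF.GridSolid Pool.Agent.MP42.NE

variable {P : GridSolid} {a b : Fin 3} {T : Thin P a b} {hab : a ≠ b}

namespace Thin

variable {e : T.TD hab → ℕ} {v : T.TD hab → ℤ}

open Classical in
/-- the pass at an `X` corner -/
noncomputable def pp (v : T.TD hab → ℤ) (s : P.FSt) : ℕ :=
  if h : T.X s then (tv v ⟨s, (T.bX s h).ky.isD⟩).toNat else 0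

open Classical in
/-- the pass at a `Z` corner -/
noncomputable def qq (v : T.TD hab → ℤ) (s : P.FSt) : ℕ :=
  if h : T.Z s then (-tv v ((sysH P a b hab).om ⟨s.rL, (T.bZ s h).ky.isD'⟩)).toNat else 0

variable (H : Adm e v)

include H

lemma pp_eq (x : HD P a) : pp v x.1 = (tv v x).toNat := by
  unfold pp
  split_ifs with h
  · rfl
  · have : ¬ 0 < tv v x := fun h' => h (tv_X H h')
    omega

lemma qq_eq (x : HD P a) : qq v x.1.rR = (-tv v ((sysH P a b hab).om x)).toNat := by
  unfold qq
  split_ifs with h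
  · congr 3
    congr 1
    exact Subtype.ext (FSt.rR_rL x.1)
  · have : ¬ tv v ((sysH P a b hab).om x) < 0 := fun h' => by
      have h1 := tv_Z H h'
      rw [hE_om] at h1
      rcases own_cases hab (T := T) (x := x.1) (Or.inr h1) with h2 | ⟨s, h2, h3⟩
      · exact X_not hab h2 h1
      · apply h
        rw [h3, FSt.rL_rR]; exact h2
    omega

lemma qq_E (x : HD P a) : qq v (hE a b x.1).r2 = (-tv v x).toNat := by
  unfold qq
  split_ifs with h
  · have h1 : KY a b (hE a b x.1) := (T.bZ _ h).ky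
    have h2 : (⟨(hE a b x.1).r2.rL, (T.bZ _ h).ky.isD'⟩ : HD P a) =
        (sysH P a b hab).om x := by
      apply Subtype.ext
      show (hE a b x.1).r2.rL = hr a b (hE a b x.1)
      rw [hr_nom h1.1 h1.2, FSt.r2_rL]
    rw [h2, Sys.om_om]
  · have : ¬ tv v x < 0 := fun h' => h (tv_Z H h')
    omega

lemma tv_cpd {x : HD P a} (h : 0 < T.la x) : tv v (T.cpd hab x) = tv v x := by
  have h1 := H.fl.v_ta (d1 T hab x (n_la h))
  rw [ta_d1 h] at h1
  rw [tv_pos (n_la (la_cpd h)), tv_pos (n_la h), h1]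

omit H in
lemma E_om_rL {s : P.FSt} (h : KY a b s) :
    hE a b ((sysH P a b hab).om ⟨s.rL, h.isD'⟩).1 = s.r2 := by
  rw [hE_om]
  have h1 : s.rL.1.d.1 = a := h.1
  show hr a b s.rL = _
  rw [hr_non h1 ((rL_b hab h.1).2 h.2), FSt.rL_rL]

lemma qq_one {s : P.FSt} (h : qq v s = 1) : ∃ hz : T.Z s,
    tv v ((sysH P a b hab).om ⟨s.rL, (T.bZ s hz).ky.isD'⟩) = -1 := by
  unfold qq at h
  split_ifs at h with h1
  have := tv_abs H ((sysH P a b hab).om ⟨s.rL, (T.bZ s h1).ky.isD'⟩)
  exact ⟨h1, by omega⟩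

lemma pp_one {s : P.FSt} (h : pp v s = 1) : ∃ hx : T.X s,
    tv v ⟨s, (T.bX s hx).ky.isD⟩ = 1 := by
  unfold pp at h
  split_ifs at h with h1
  have := tv_abs H ⟨s, (T.bX s h1).ky.isD⟩
  exact ⟨h1, by omega⟩

/-- **the reduced flow** -/
noncomputable def toT (H : Adm e v) : TFl P a b hab where
  e := fun x => e (d0 T hab x)
  v := fun x => v (d0 T hab x)
  p := pp v
  q := qq v
  bal := fun x => by
    have h1 := H.fl.bal (d0 T hab x)
    rw [r_d0] at h1
    exact h1
  vr := fun x => by
    have h1 := H.fl.vr (d0 T hab x)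
    rw [N_d0, r_d0] at h1
    exact h1
  v0 := fun x hx => H.h0 _ (fun h' => hx (by
    unfold RibT at h'
    exact (if_pos rfl).mp h'))
  pq := fun s => by
    unfold pp qq
    split_ifs with h1 h2 h2
    · exact absurd h2 (H.xz s h1)
    · have := tv_abs H ⟨s, (T.bX s h1).ky.isD⟩
      omega
    · have := tv_abs H ((sysH P a b hab).om ⟨s.rL, (T.bZ s h2).ky.isD'⟩)
      omega
    · omega
  bad := fun s hs => by
    unfold pp qq at hs
    split_ifs at hs with h1 h2 h2
    · exact T.bX s h1
    · exact T.bX s h1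
    · exact T.bZ s h2
    · omega
  po := fun s hs => by
    obtain ⟨h1, h2⟩ := pp_one H hs
    have h3 : 0 < T.la (⟨s, (T.bX s h1).ky.isD⟩ : HD P a) := la_pos.2 (Or.inl h1)
    have h4 := tv_cpd H h3
    rw [cpd_X hab (d := (⟨s, (T.bX s h1).ky.isD⟩ : HD P a)) h1, h2] at h4
    have h5 := pp_eq H ⟨(opq s).r2, (T.bX s h1).ky'.isD⟩
    rw [h4] at h5
    exact h5
  qo := fun s hs => by
    obtain ⟨h1, h2⟩ := qq_one H hs
    have hb := T.bZ s h1
    set d : HD P a := (sysH P a b hab).om ⟨s.rL, hb.ky.isD'⟩ with hd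
    have h0 : hE a b d.1 = s.r2 := E_om_rL hb.ky
    have h3 : T.Z (hE a b d.1).r2 := by rw [h0, FSt.r2_r2]; exact h1
    have h4 := tv_cpd H (x := d) (la_pos.2 (Or.inr h3))
    have h5 := cpd_Z_E hab h3
    rw [h0, FSt.r2_r2] at h5
    have h6 := qq_E H (T.cpd hab d)
    rw [h5, h4, h2] at h6
    exact h6
  le := fun x => by
    have h1 := pp_eq H x
    have h2 := qq_eq H x
    have h3 := e_gap H x
    have h4 := tv_or H x
    rw [h1, h2]
    omega
  er := fun x => by
    have h1 := pp_eq H x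
    have h2 := qq_eq H x
    have h3 := e_gap H x
    have h5 := pp_eq H ((sysH P a b hab).om x)
    have h6 := qq_eq H ((sysH P a b hab).om x)
    rw [Sys.om_om] at h6
    show e (d0 T hab ((sysH P a b hab).om x)) + (pp v x.1 + qq v x.1.rR) =
      e (d0 T hab x) + (pp v ((sysH P a b hab).om x).1 + qq v ((sysH P a b hab).om x).1.rR)
    omega

lemma ee_toT (x : HD P a) : (toT H).ee x.1 = e (d0 T hab x) := ext0_eq _ x

lemma vv_toT (x : HD P a) : (toT H).vv x.1 = v (d0 T hab x) := ext1_eq _ x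

lemma p_toT (x : HD P a) : (toT H).p x.1 = (tv v x).toNat := pp_eq H x

lemma q_toT (x : HD P a) : (toT H).q (hE a b x.1).r2 = (-tv v x).toNat := qq_E H x

lemma sd_toT (x : HD P a) : (toT H).sd x.1 = e (d0 T hab x) -
    ((tv v x).toNat + (-tv v ((sysH P a b hab).om x)).toNat) := by
  have h1 := pp_eq H x
  have h2 := qq_eq H x
  unfold TFl.sd TFl.co
  rw [ee_toT]
  show _ - (pp v x.1 + qq v x.1.rR) = _
  rw [h1, h2]

lemma sd_add_toT (x : HD P a) : (toT H).sd x.1 +
    ((tv v x).toNat + (-tv v ((sysH P a b hab).om x)).toNat) = e (d0 T hab x) := by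
  have h3 := e_gap H x
  have h4 := tv_or H x
  rw [sd_toT]
  omega

lemma cn_toT (x : HD P a) : (toT H).cn x.1 = (T.tsys hab).cnt e v (d0 T hab x) := by
  unfold TFl.cn Sys.cnt
  rw [ee_toT, vv_toT, r_d0]
  have h1 := vv_toT H ((sysH P a b hab).r x)
  change (toT H).vv (hr a b x.1) = _ at h1
  rw [h1]

/-! ## Connectedness -/

open Classical in
/-- extension of a predicate to the gaps -/
noncomputable def GG (H : Adm e v) (g : P.FSt → ℕ → Prop) (p : T.TD hab) (j : ℕ) : Prop :=
  if p.1.2 = 0 then g p.1.1.1 j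
  else if T.own p.1.1.1 then g p.1.1.1 (((toT H).vv p.1.1.1).toNat + j)
  else g (hE a b p.1.1.1) ((-(toT H).vv (hE a b p.1.1.1)).toNat + j)

variable {g : P.FSt → ℕ → Prop}

lemma GG_d0 (x : HD P a) (j : ℕ) : GG H g (d0 T hab x) j ↔ g x.1 j := by
  unfold GG
  rw [if_pos (show (d0 T hab x).1.2 = 0 from rfl)]
  exact Iff.rfl

lemma GG_own {x : HD P a} {h : 1 ≤ (T.cuts hab).n x} (ho : T.own x.1) (j : ℕ) :
    GG H g (d1 T hab x h) j ↔ g x.1 ((v (d0 T hab x)).toNat + j) := by
  unfold GG
  rw [if_neg (show ¬ (d1 T hab x h).1.2 = 0 from one_ne_zero),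
    if_pos (show T.own (d1 T hab x h).1.1.1 from ho)]
  show g x.1 (((toT H).vv x.1).toNat + j) ↔ _
  rw [vv_toT]

lemma GG_not {x : HD P a} {h : 1 ≤ (T.cuts hab).n x} (ho : ¬ T.own x.1) (j : ℕ) :
    GG H g (d1 T hab x h) j ↔
      g (hE a b x.1) ((-v (d0 T hab ((sysH P a b hab).E x))).toNat + j) := by
  unfold GG
  rw [if_neg (show ¬ (d1 T hab x h).1.2 = 0 from one_ne_zero),
    if_neg (show ¬ T.own (d1 T hab x h).1.1.1 from ho)]
  show g (hE a b x.1) ((-(toT H).vv (hE a b x.1)).toNat + j) ↔ _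
  have h1 := vv_toT H ((sysH P a b hab).E x)
  change (toT H).vv (hE a b x.1) = _ at h1
  rw [h1]

omit H in
lemma own_or {x : HD P a} (h : 1 ≤ (T.cuts hab).n x) :
    (T.own x.1 ∧ ¬ T.own ((sysH P a b hab).om x).1) ∨
      (¬ T.own x.1 ∧ T.own ((sysH P a b hab).om x).1) := by
  rcases (n_pos hab).1 h with h1 | h1
  · exact Or.inl ⟨h1, own_om hab h1⟩
  · refine Or.inr ⟨fun h2 => own_om hab h2 h1, h1⟩

lemma gg_con (hg : (toT H).RCon g) : (T.tsys hab).FCon e v (GG H g) := by
  constructor
  · -- east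
    intro d j hj
    have base : ∀ x : HD P a, ∀ j < (toT H).sd x.1,
        (g x.1 ((v (d0 T hab x)).toNat + (tv v x).toNat + j) ↔ g (hE a b x.1)
          ((-v (d0 T hab ((sysH P a b hab).E x))).toNat + (-tv v x).toNat + j)) := by
      intro x j hj
      have h1 := hg.cE x.1 x.2 j hj
      have h2 := vv_toT H ((sysH P a b hab).E x)
      change (toT H).vv (hE a b x.1) = _ at h2
      rw [vv_toT, p_toT, q_toT, h2] at h1
      exact h1
    rcases TD_cases d with ⟨x, rfl⟩ | ⟨x, h, rfl⟩
    · have hs := sd_add_toT H x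
      by_cases h : 1 ≤ (T.cuts hab).n x
      · rw [E_d0' h, GG_d0]
        rcases own_or h with ⟨h1, h2⟩ | ⟨h1, h2⟩
        · obtain ⟨h3, h4⟩ := own_sign H h1
          rw [GG_own H h1]
          rw [tv_pos h] at h3
          rw [show (-v (d1 T hab x h)).toNat = 0 by omega, Nat.zero_add]
        · obtain ⟨h3, h4⟩ := own_sign' H h2
          rw [GG_not H h1]
          have h5 := base x j (by omega)
          rw [show (tv v x).toNat = 0 by omega, Nat.add_zero] at h5
          rw [h5, tv_pos h, Nat.add_assoc]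
      · obtain ⟨h1, h2⟩ := tv_not (v := v) h
        rw [E_d0 h, GG_d0, GG_d0]
        have h5 := base x j (by rw [h1, h2] at hs; simp at hs; omega)
        rw [h1] at h5
        simpa using h5
    · rw [E_d1 h, GG_d0]
      have hs := sd_add_toT H x
      have he := e_gap H x
      rw [e_d1 H h] at hj
      rcases own_or h with ⟨h1, h2⟩ | ⟨h1, h2⟩
      · obtain ⟨h3, h4⟩ := own_sign H h1
        rw [GG_own H h1, ← tv_pos (v := v) h]
        have h5 := base x j (by omega)
        rw [show (-tv v x).toNat = 0 by omega, Nat.add_zero, Nat.add_assoc] at h5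
        exact h5
      · obtain ⟨h3, h4⟩ := own_sign' H h2
        rw [GG_not H h1, ← tv_pos (v := v) h, show (tv v x).toNat = 0 by omega, Nat.zero_add]
        exact Iff.rfl
  · -- north, letter NE
    intro d j hj
    rcases TD_cases d with ⟨x, rfl⟩ | ⟨x, h, rfl⟩
    · have h1 := hg.cp x.1 x.2 j (by rw [vv_toT]; exact hj)
      have h2 := vv_toT H ((sysH P a b hab).N x)
      change (toT H).vv (hN a x.1) = _ at h2
      have h3 := ee_toT H ((sysH P a b hab).r ((sysH P a b hab).N x))
      change (toT H).ee (hr a b (hN a x.1)) = _ at h3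
      rw [h2, h3] at h1
      rw [N_d0, r_d0, GG_d0, GG_d0]
      exact h1
    · have hx : 0 < tv v x := by rw [tv_pos h]; omega
      have ha := tv_abs H x
      rw [← tv_pos (v := v) h] at hj
      obtain rfl : j = 0 := by omega
      have hX := tv_X H hx
      have hb := T.bX _ hX
      have hl : 0 < T.la x := la_pos.2 (Or.inl hX)
      obtain ⟨y, hy⟩ : ∃ y, y = T.cpd hab x := ⟨_, rfl⟩
      have hly : 0 < T.la y := by rw [hy]; exact la_cpd hl
      have hyv : y.1 = (opq x.1).r2 := by rw [hy, cpd_X hab hX]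
      have hoy : T.own y.1 := by rw [hyv]; exact Or.inl (T.oX _ hX)
      have hty : tv v y = 1 := by rw [hy, tv_cpd H hl]; omega
      have hto : tv v ((sysH P a b hab).om y) = 0 := by
        rcases tv_or H y with h1 | h1
        · omega
        · exact h1
      have hgap := e_gap H y
      have hN1 : (T.tsys hab).N (d1 T hab x h) =
          d1 T hab ((sysH P a b hab).om y) (n_om' (n_la hly)) := by
        subst hy; exact N_d1 hl
      have hr1 : (T.tsys hab).r ((T.tsys hab).N (d1 T hab x h)) = d1 T hab y (n_la hly) := by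
        subst hy; exact ta_d1 hl
      rw [GG_own H (Or.inl hX), hr1, hN1, e_d1 H, ← tv_pos (v := v) (n_om' (n_la hly)), hto,
        GG_not H (own_om hab hoy)]
      have h1 := hg.cX x.1 (by
        have := p_toT H x
        omega)
      have hv0 : (toT H).vv (opq x.1).rL = 0 :=
        TFl.vv_zero hb.ky'.1 ((rL_b hab hb.ky'.1).2 hb.ky'.2)
      have hE1 : hE a b ((sysH P a b hab).om y).1 = (opq x.1).rL := by
        rw [hE_om, hyv, hr_nom (t := (opq x.1).r2) hb.ky'.1 hb.ky'.2, FSt.r2_rR]
      have h2 := vv_toT H ((sysH P a b hab).E ((sysH P a b hab).om y))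
      change (toT H).vv (hE a b ((sysH P a b hab).om y).1) = _ at h2
      rw [hE1, hv0] at h2
      rw [hE1, ← h2]
      have h3 := ee_toT H y
      rw [hyv] at h3
      rw [vv_toT] at h1
      rw [Nat.add_zero, h1, h3]
      have h4 : e (d0 T hab y) - 1 = (-(0 : ℤ)).toNat + ((-(0 : ℤ)).toNat +
          e (d0 T hab ((sysH P a b hab).om y)) + 0) := by omega
      rw [h4]
  · -- north, letter SE
    intro d j hj
    rcases TD_cases d with ⟨x, rfl⟩ | ⟨x, h, rfl⟩
    · have h1 := hg.cm x.1 x.2 j (by rw [vv_toT]; exact hj)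
      have h2 := vv_toT H ((sysH P a b hab).N x)
      change (toT H).vv (hN a x.1) = _ at h2
      have h3 := ee_toT H ((sysH P a b hab).N x)
      change (toT H).ee (hN a x.1) = _ at h3
      rw [h2, h3] at h1
      rw [N_d0, GG_d0, GG_d0]
      exact h1
    · have hx : tv v x < 0 := by rw [tv_pos h]; omega
      have ha := tv_abs H x
      rw [← tv_pos (v := v) h] at hj
      obtain rfl : j = 0 := by omega
      have hZ := tv_Z H hx
      have hb := T.bZ _ hZ
      have hl : 0 < T.la x := la_pos.2 (Or.inr hZ)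
      obtain ⟨y, hy⟩ : ∃ y, y = T.cpd hab x := ⟨_, rfl⟩
      have hly : 0 < T.la y := by rw [hy]; exact la_cpd hl
      have hyv : hE a b y.1 = opq (hE a b x.1).r2 := by rw [hy]; exact cpd_Z_E hab hZ
      have hoy : T.own ((sysH P a b hab).om y).1 := by
        right
        rw [hr_om, hyv]; exact T.oZ _ hZ
      have hox : ¬ T.own x.1 := fun h' => own_om hab h' (Or.inr (by rw [hr_om]; exact hZ))
      have hty : tv v y = -1 := by rw [hy, tv_cpd H hl]; omega
      have hto : tv v ((sysH P a b hab).om y) = 0 := by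
        rcases tv_or H y with h1 | h1
        · omega
        · exact h1
      have hgap := e_gap H y
      have hN1 : (T.tsys hab).N (d1 T hab x h) =
          d1 T hab ((sysH P a b hab).om y) (n_om' (n_la hly)) := by
        subst hy; exact N_d1 hl
      have hsv : ((sysH P a b hab).om y).1 = (opq (hE a b x.1).r2).rR := by
        show hr a b (hE a b y.1) = _
        rw [hyv, hr_nom hb.ky'.1 hb.ky'.2]
      have hv0 : (toT H).vv ((sysH P a b hab).om y).1 = 0 := by
        rw [hsv]
        exact TFl.vv_zero hb.ky'.1 ((rR_b hab hb.ky'.1).2 hb.ky'.2)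
      rw [vv_toT] at hv0
      rw [GG_not H hox, hN1, e_d1 H, ← tv_pos (v := v) (n_om' (n_la hly)), hto,
        GG_own H hoy, hv0, Sys.om_om]
      have hq : (toT H).q (opq (hE a b x.1).r2).r2 = 1 := by
        have h1 := qq_eq H ((sysH P a b hab).om y)
        rw [Sys.om_om, hsv, FSt.rR_rR, hty] at h1
        exact h1
      have h1 := hg.cZ (opq (hE a b x.1).r2).r2 hq
      rw [opq_opq hb.ok, FSt.r2_r2, FSt.r2_rL, ← hsv, ee_toT] at h1
      have h2 := vv_toT H ((sysH P a b hab).E x)
      change (toT H).vv (hE a b x.1) = _ at h2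
      rw [h2] at h1
      rw [Nat.add_zero, ← h1]
      have h4 : e (d0 T hab ((sysH P a b hab).om y)) - 1 = (0 : ℤ).toNat + ((0 : ℤ).toNat +
          e (d0 T hab y) + 0) := by omega
      rw [h4]
  · -- half turn
    intro d t ht
    rcases TD_cases d with ⟨x, rfl⟩ | ⟨x, h, rfl⟩
    · have h1 := hg.cr x.1 x.2 t (by rw [cn_toT]; exact ht)
      rw [cn_toT] at h1
      rw [r_d0, GG_d0, GG_d0]
      exact h1
    · have hc : (T.tsys hab).cnt e v (d1 T hab x h) = e (d0 T hab ((sysH P a b hab).om x)) +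
          (tv v x).toNat + (-tv v ((sysH P a b hab).om x)).toNat := by
        unfold Sys.cnt
        rw [r_d1, e_d1 H h, ← tv_pos (v := v) h, ← tv_pos (v := v) (n_om' h)]
      rw [hc] at ht
      have hgap := e_gap H x
      rw [r_d1, hc]
      have key : ∀ (x : HD P a) (i : ℕ), i < e (d0 T hab x) →
          (g (hr a b x.1) ((-v (d0 T hab ((sysH P a b hab).r x))).toNat + i) ↔
            g x.1 ((v (d0 T hab x)).toNat + (e (d0 T hab x) - 1 - i))) := by
        intro x i hi
        have hcn := cn_toT H x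
        have hcd : (T.tsys hab).cnt e v (d0 T hab x) = e (d0 T hab x) + (v (d0 T hab x)).toNat +
            (-v (d0 T hab ((sysH P a b hab).r x))).toNat := by
          unfold Sys.cnt
          rw [r_d0]
        have h1 := hg.cr x.1 x.2 ((-v (d0 T hab ((sysH P a b hab).r x))).toNat + i)
          (by rw [hcn, hcd]; omega)
        rw [h1, hcn, hcd]
        have h2 : e (d0 T hab x) + (v (d0 T hab x)).toNat +
            (-v (d0 T hab ((sysH P a b hab).r x))).toNat - 1 -
            ((-v (d0 T hab ((sysH P a b hab).r x))).toNat + i) =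
            (v (d0 T hab x)).toNat + (e (d0 T hab x) - 1 - i) := by omega
        rw [h2]
      rcases own_or h with ⟨h1, h2⟩ | ⟨h1, h2⟩
      · obtain ⟨h3, h4⟩ := own_sign H h1
        rw [GG_not H h2, GG_own H h1, hE_om, Sys.E_om, key x t (by omega)]
        have h5 : (v (d0 T hab x)).toNat + (e (d0 T hab x) - 1 - t) = (v (d0 T hab x)).toNat +
            (e (d0 T hab ((sysH P a b hab).om x)) + (tv v x).toNat +
              (-tv v ((sysH P a b hab).om x)).toNat - 1 - t) := by omega
        rw [h5]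
      · obtain ⟨h3, h4⟩ := own_sign' H h2
        rw [GG_own H h2, GG_not H h1]
        have h5 := key ((sysH P a b hab).om x) (e (d0 T hab ((sysH P a b hab).om x)) - 1 - t)
          (by omega)
        have h6 : (sysH P a b hab).r ((sysH P a b hab).om x) = (sysH P a b hab).E x := by
          show (sysH P a b hab).r ((sysH P a b hab).r ((sysH P a b hab).E x)) = _
          rw [Sys.rr]
        rw [hr_om, h6] at h5
        have h7 : e (d0 T hab ((sysH P a b hab).om x)) - 1 - (e (d0 T hab ((sysH P a b hab).om x)) -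
          1 - t) = t := by omega
        have h8 : e (d0 T hab ((sysH P a b hab).om x)) + (tv v x).toNat +
            (-tv v ((sysH P a b hab).om x)).toNat - 1 - t =
            e (d0 T hab ((sysH P a b hab).om x)) - 1 - t := by omega
        rw [h7] at h5
        rw [h8]
        exact h5.symm

/-- **the reduced flow is connected** -/
lemma rconn (hC : (T.tsys hab).FConn e v) : (toT H).RConn := by
  intro g hg
  obtain ⟨c, hc⟩ := hC _ (gg_con H hg)
  refine ⟨c, fun x hx j hj => ?_⟩
  have h1 := hc (d0 T hab ⟨x, hx⟩) j (by rw [← cn_toT H ⟨x, hx⟩]; exact hj)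
  rw [GG_d0] at h1
  exact h1

end Thin

end Pool.Agent.MP42.EO
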